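import Pool.Agent.Lib.MP_293cc0_an.LG.Ext

/-!
# MP_293cc0_an: the L-regime, the constant order scheme

`p` points `a i`, `2 p` later columns `s j < t i` in which the order of the `a i` is constant:
`2 p` functions cover the `3 p` points.
-/

set_option autoImplicit false

namespace Pool.Agent.Lib.MP_293cc0_an.LG

open Finset

variable {X : Type} [MetricSpace X]

/-- A partial potential given by indices. -/
theorem exists_idx {x : ℕ → X} {m : ℕ} (hinj : ∀ i j, i < m → j < m → x i = x j → i = j)
    (D : Finset ℕ) (hD : ∀ i ∈ D, i < m) (s : ℕ → Bool) (p : ℕ → ℝ)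
    (feas : ∀ i ∈ D, ∀ j ∈ D, s i = true → s j = false → p i + p j ≤ dist (x i) (x j))
    (tight : ∀ i ∈ D, ∃ j ∈ D, s i ≠ s j ∧ p i + p j = dist (x i) (x j)) :
    ∃ f : PF X, ∀ i ∈ D, ∀ j ∈ D, s i ≠ s j → p i + p j = dist (x i) (x j) →
      f.cov (x i) (x j) := by
  classical
  let g : X → ℕ := Function.invFunOn x (Set.Iio m)
  have hinj' : Set.InjOn x (Set.Iio m) := fun i hi j hj h => hinj i j hi hj h
  have hg : ∀ i, i < m → g (x i) = i := fun i hi => hinj'.leftInvOn_invFunOn hi
  have hmem : ∀ y, y ∈ D.image x ↔ ∃ i ∈ D, x i = y := fun y => Finset.mem_image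
  refine ⟨⟨D.image x, fun y => s (g y), fun y => p (g y), ?_, ?_⟩, ?_⟩
  · intro y hy z hz hyz
    obtain ⟨i, hi, rfl⟩ := (hmem y).1 hy
    obtain ⟨j, hj, rfl⟩ := (hmem z).1 hz
    rw [hg i (hD i hi), hg j (hD j hj)] at hyz
    rw [hg i (hD i hi), hg j (hD j hj)]
    cases h1 : s i
    · cases h2 : s j
      · rw [h1, h2] at hyz; exact absurd rfl hyz
      · have := feas j hj i hi h2 h1
        rw [dist_comm (x i) (x j)]
        linarith
    · cases h2 : s j
      · exact feas i hi j hj h1 h2
      · rw [h1, h2] at hyz; exact absurd rfl hyz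
  · intro y hy
    obtain ⟨i, hi, rfl⟩ := (hmem y).1 hy
    obtain ⟨j, hj, h1, h2⟩ := tight i hi
    refine ⟨x j, (hmem _).2 ⟨j, hj, rfl⟩, ?_, ?_⟩
    · rw [hg i (hD i hi), hg j (hD j hj)]; exact h1
    · rw [hg i (hD i hi), hg j (hD j hj)]; exact h2
  · intro i hi j hj h1 h2
    refine ⟨(hmem _).2 ⟨i, hi, rfl⟩, (hmem _).2 ⟨j, hj, rfl⟩, ?_, ?_⟩
    · show s (g (x i)) ≠ s (g (x j))
      rw [hg i (hD i hi), hg j (hD j hj)]; exact h1
    · show p (g (x i)) + p (g (x j)) = _
      rw [hg i (hD i hi), hg j (hD j hj)]; exact h2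

theorem const_scheme {x : ℕ → X} {m : ℕ} {e : ℕ → ℕ → ℝ} (C : LComb x m e) {p : ℕ}
    (a s t : Fin p → ℕ) (ha : Function.Injective a) (hs : Function.Injective s)
    (ht : StrictAnti t) (has : ∀ i j, a i < s j) (hst : ∀ j i, s j < t i) (htm : ∀ i, t i < m)
    (hes : ∀ i j, i ≤ j → ∀ k, e (a i) (s k) ≤ e (a j) (s k))
    (het : ∀ i j, i ≤ j → ∀ k, e (a i) (t k) ≤ e (a j) (t k)) :
    ∃ (S : Finset X) (k : ℕ), Cov S k ∧ k + p ≤ S.card := by
  classical
  have hat : ∀ i j, a i < t j := fun i j => lt_trans (has i i) (hst i j)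
  obtain ⟨cols, hcols⟩ : ∃ cols : Finset ℕ, ∀ u, u ∈ cols ↔ (∃ j, s j = u) ∨ ∃ i, t i = u :=
    ⟨Finset.univ.image s ∪ Finset.univ.image t, fun u => by
      rw [Finset.mem_union, Finset.mem_image, Finset.mem_image]; simp⟩
  obtain ⟨as, has'⟩ : ∃ as : Finset ℕ, ∀ u, u ∈ as ↔ (∃ j, a j = u) :=
    ⟨Finset.univ.image a, fun u => by rw [Finset.mem_image]; simp⟩
  have hac : ∀ i, ∀ u ∈ cols, a i < u := by
    intro i u hu
    rcases (hcols u).1 hu with ⟨j, rfl⟩ | ⟨j, rfl⟩
    · exact has i j
    · exact hat i j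
  have hcm : ∀ u ∈ cols, u < m := by
    intro u hu
    rcases (hcols u).1 hu with ⟨j, rfl⟩ | ⟨j, rfl⟩
    · exact lt_trans (hst j j) (htm j)
    · exact htm j
  have hec : ∀ i j, i ≤ j → ∀ u ∈ cols, e (a i) u ≤ e (a j) u := by
    intro i j hij u hu
    rcases (hcols u).1 hu with ⟨k, rfl⟩ | ⟨k, rfl⟩
    · exact hes i j hij k
    · exact het i j hij k
  -- the functions `F j`
  have hF : ∀ j : Fin p, ∃ f : PF X, (∀ i, i ≠ j → f.cov (x (a i)) (x (a j))) ∧
      f.cov (x (a j)) (x (s j)) ∧ ∀ u ∈ cols, s j < u → f.cov (x (s j)) (x u) := by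
    intro j
    let D : Finset ℕ := as ∪ insert (s j) (cols.filter (fun u => s j < u))
    have hDm : ∀ u, u ∈ D ↔ (∃ i, a i = u) ∨ u = s j ∨ (u ∈ cols ∧ s j < u) := by
      intro u
      show u ∈ as ∪ insert (s j) (cols.filter (fun u => s j < u)) ↔ _
      rw [Finset.mem_union, Finset.mem_insert, Finset.mem_filter, has']
    let sd : ℕ → Bool := fun u => decide (u = a j ∨ s j < u)
    let q : ℕ → ℝ := fun u => if s j < u then dist (x (s j)) (x u) - dist (x (a j)) (x (s j)) else
      dist (x u) (x (a j))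
    have sd1 : sd (a j) = true := by simp [sd]
    have sd2 : ∀ i, i ≠ j → sd (a i) = false := by
      intro i hi
      have h1 : a i ≠ a j := fun h => hi (ha h)
      have h2 := has i j
      simp only [sd, decide_eq_false_iff_not]
      omega
    have sd3 : sd (s j) = false := by
      have h2 := has j j
      simp only [sd, decide_eq_false_iff_not]
      omega
    have sd4 : ∀ u, s j < u → sd u = true := by
      intro u hu
      simp [sd, hu]
    have q1 : ∀ i, q (a i) = dist (x (a i)) (x (a j)) := by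
      intro i
      have := has i j
      show (if s j < a i then _ else _) = _
      rw [if_neg (by omega)]
    have q2 : q (s j) = dist (x (a j)) (x (s j)) := by
      show (if s j < s j then _ else _) = _
      rw [if_neg (by omega), dist_comm]
    have q3 : ∀ u, s j < u → q u = dist (x (s j)) (x u) - dist (x (a j)) (x (s j)) := by
      intro u hu
      show (if s j < u then _ else _) = _
      rw [if_pos hu]
    have mas : ∀ i, a i ∈ D := fun i => (hDm _).2 (Or.inl ⟨i, rfl⟩)
    have mss : s j ∈ D := (hDm _).2 (Or.inr (Or.inl rfl))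
    have mcs : ∀ u ∈ cols, s j < u → u ∈ D := fun u hu h => (hDm _).2 (Or.inr (Or.inr ⟨hu, h⟩))
    obtain ⟨f, hf⟩ := exists_idx C.inj D
      (by
        intro u hu
        rcases (hDm u).1 hu with ⟨i, rfl⟩ | rfl | ⟨hu, -⟩
        · exact lt_trans (hat i i) (htm i)
        · exact lt_trans (hst j j) (htm j)
        · exact hcm u hu) sd q
      (by
        intro u hu v hv h1 h2
        -- `u` on the true side: `a j` or a later column; `v` on the false side
        have hu2 : u = a j ∨ (u ∈ cols ∧ s j < u) := by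
          rcases (hDm u).1 hu with ⟨i, rfl⟩ | rfl | h
          · by_cases hij : i = j
            · exact Or.inl (by rw [hij])
            · rw [sd2 i hij] at h1; exact absurd h1 (by simp)
          · rw [sd3] at h1; exact absurd h1 (by simp)
          · exact Or.inr h
        have hv2 : (∃ i, i ≠ j ∧ a i = v) ∨ v = s j := by
          rcases (hDm v).1 hv with ⟨i, rfl⟩ | h | ⟨-, h⟩
          · by_cases hij : i = j
            · rw [hij, sd1] at h2; exact absurd h2 (by simp)
            · exact Or.inl ⟨i, hij, rfl⟩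
          · exact Or.inr h
          · rw [sd4 v h] at h2; exact absurd h2 (by simp)
        rcases hu2 with rfl | ⟨hu3, hu4⟩
        · rcases hv2 with ⟨i, hij, rfl⟩ | rfl
          · rw [q1, q1, dist_self, zero_add, dist_comm]
          · rw [q1, q2, dist_self, zero_add]
        · rcases hv2 with ⟨i, hij, rfl⟩ | rfl
          · rw [q3 u hu4, q1]
            have := C.L (a j) (a i) (s j) u (fun h => hij (ha h).symm) (has j j) (has i j) hu4
              (hcm u hu3)
            have h5 := dist_comm (x (a i)) (x (a j))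
            have h6 := dist_comm (x u) (x (a i))
            linarith
          · rw [q3 u hu4, q2]
            have h6 := dist_comm (x u) (x (s j))
            linarith)
      (by
        intro u hu
        rcases (hDm u).1 hu with ⟨i, rfl⟩ | rfl | ⟨hu, hu4⟩
        · by_cases hij : i = j
          · subst hij
            refine ⟨s i, mss, by rw [sd1, sd3]; simp, ?_⟩
            rw [q1, q2, dist_self, zero_add]
          · refine ⟨a j, mas j, by rw [sd1, sd2 i hij]; simp, ?_⟩
            rw [q1, q1, dist_self, add_zero]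
        · refine ⟨a j, mas j, by rw [sd1, sd3]; simp, ?_⟩
          rw [q1, q2, dist_self, add_zero, dist_comm]
        · refine ⟨s j, mss, by rw [sd3, sd4 u hu4]; simp, ?_⟩
          rw [q3 u hu4, q2, dist_comm (x u) (x (s j))]
          ring)
    refine ⟨f, ?_, ?_, ?_⟩
    · intro i hij
      apply hf _ (mas i) _ (mas j)
      · rw [sd1, sd2 i hij]; simp
      · rw [q1, q1, dist_self, add_zero]
    · apply hf _ (mas j) _ mss
      · rw [sd1, sd3]; simp
      · rw [q1, q2, dist_self, zero_add]
    · intro u hu hsu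
      apply hf _ mss _ (mcs u hu hsu)
      · rw [sd3, sd4 u hsu]; simp
      · rw [q2, q3 u hsu]; ring
  -- the functions `G i`
  have hG : ∀ i : Fin p, ∃ f : PF X, (∀ j, i ≤ j → f.cov (x (a j)) (x (t i))) ∧
      (∀ u ∈ cols, u ≤ t i → f.cov (x (a i)) (x u)) ∧
      ∀ u ∈ cols, t i < u → f.cov (x (t i)) (x u) := by
    intro i
    let D : Finset ℕ := (Finset.univ.filter (fun j => i ≤ j)).image a ∪ cols
    have hDm : ∀ u, u ∈ D ↔ (∃ j, i ≤ j ∧ a j = u) ∨ u ∈ cols := by
      intro u
      show u ∈ (Finset.univ.filter (fun j => i ≤ j)).image a ∪ cols ↔ _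
      rw [Finset.mem_union, Finset.mem_image]
      simp
    let sd : ℕ → Bool := fun u => decide (u ∈ cols ∧ u ≤ t i)
    let q : ℕ → ℝ := fun u => if u ∈ cols ∧ u ≤ t i then
      dist (x (a i)) (x u) - dist (x (a i)) (x (t i)) else dist (x u) (x (t i))
    have hanc : ∀ j, a j ∉ cols := fun j h => lt_irrefl _ (hac j _ h)
    have htc : t i ∈ cols := (hcols _).2 (Or.inr ⟨i, rfl⟩)
    have sd1 : ∀ j, sd (a j) = false := by
      intro j
      simp only [sd, decide_eq_false_iff_not]
      exact fun h => hanc j h.1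
    have sd2 : ∀ u ∈ cols, u ≤ t i → sd u = true := by
      intro u hu h
      simp [sd, hu, h]
    have sd3 : ∀ u ∈ cols, t i < u → sd u = false := by
      intro u hu h
      simp only [sd, decide_eq_false_iff_not]
      omega
    have q1 : ∀ j, q (a j) = dist (x (a j)) (x (t i)) := by
      intro j
      show (if _ then _ else _) = _
      rw [if_neg (fun h => hanc j h.1)]
    have q2 : ∀ u ∈ cols, u ≤ t i →
        q u = dist (x (a i)) (x u) - dist (x (a i)) (x (t i)) := by
      intro u hu h
      show (if _ then _ else _) = _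
      rw [if_pos ⟨hu, h⟩]
    have q3 : ∀ u ∈ cols, t i < u → q u = dist (x u) (x (t i)) := by
      intro u hu h
      show (if _ then _ else _) = _
      rw [if_neg (fun h' => by omega)]
    have mas : ∀ j, i ≤ j → a j ∈ D := fun j hj => (hDm _).2 (Or.inl ⟨j, hj, rfl⟩)
    have mcs : ∀ u ∈ cols, u ∈ D := fun u hu => (hDm _).2 (Or.inr hu)
    obtain ⟨f, hf⟩ := exists_idx C.inj D
      (by
        intro u hu
        rcases (hDm u).1 hu with ⟨j, -, rfl⟩ | hu
        · exact lt_trans (hat j j) (htm j)
        · exact hcm u hu) sd q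
      (by
        intro u hu v hv h1 h2
        have hu2 : u ∈ cols ∧ u ≤ t i := by
          by_contra hcon
          have : sd u = false := by simp only [sd, decide_eq_false_iff_not]; exact hcon
          rw [this] at h1
          exact absurd h1 (by simp)
        rw [q2 u hu2.1 hu2.2]
        rcases (hDm v).1 hv with ⟨j, hij, rfl⟩ | hv
        · rw [q1]
          rcases Nat.lt_or_ge u (t i) with hlt | hge
          · have := C.O (a i) (a j) u (t i) (hac i u hu2.1) (hac j u hu2.1) hlt (htm i)
              (hec i j hij u hu2.1)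
            have h6 := dist_comm (x u) (x (a j))
            linarith
          · have hu3 : u = t i := le_antisymm hu2.2 hge
            rw [hu3, dist_comm (x (t i)) (x (a j))]
            linarith
        · have hv2 : t i < v := by
            by_contra hcon
            rw [sd2 v hv (by omega)] at h2
            exact absurd h2 (by simp)
          rw [q3 v hv hv2]
          rcases Nat.lt_or_ge u (t i) with hlt | hge
          · have := C.L (a i) u (t i) v (ne_of_lt (hac i u hu2.1)) (hat i i) hlt hv2 (hcm v hv)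
            have h6 := dist_comm (x v) (x (t i))
            linarith
          · have hu3 : u = t i := le_antisymm hu2.2 hge
            rw [hu3, dist_comm (x v) (x (t i))]
            linarith)
      (by
        intro u hu
        rcases (hDm u).1 hu with ⟨j, hij, rfl⟩ | hu
        · refine ⟨t i, mcs _ htc, by rw [sd1, sd2 _ htc le_rfl]; simp, ?_⟩
          rw [q1, q2 _ htc le_rfl]
          ring
        · rcases Nat.lt_or_ge (t i) u with hlt | hge
          · refine ⟨t i, mcs _ htc, by rw [sd3 u hu hlt, sd2 _ htc le_rfl]; simp, ?_⟩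
            rw [q3 u hu hlt, q2 _ htc le_rfl]
            ring
          · refine ⟨a i, mas i le_rfl, by rw [sd1, sd2 u hu hge]; simp, ?_⟩
            rw [q1, q2 u hu hge, dist_comm (x u) (x (a i))]
            ring)
    refine ⟨f, ?_, ?_, ?_⟩
    · intro j hij
      apply hf _ (mas j hij) _ (mcs _ htc)
      · rw [sd1, sd2 _ htc le_rfl]; simp
      · rw [q1, q2 _ htc le_rfl]; ring
    · intro u hu h
      apply hf _ (mas i le_rfl) _ (mcs u hu)
      · rw [sd1, sd2 u hu h]; simp
      · rw [q1, q2 u hu h]; ring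
    · intro u hu h
      apply hf _ (mcs _ htc) _ (mcs u hu)
      · rw [sd2 _ htc le_rfl, sd3 u hu h]; simp
      · rw [q2 _ htc le_rfl, q3 u hu h, dist_comm (x (t i)) (x u)]; ring
  choose F hF1 hF2 hF3 using hF
  choose G hG1 hG2 hG3 using hG
  let φ : Fin p ⊕ Fin p ⊕ Fin p → ℕ := Sum.elim a (Sum.elim s t)
  have hφm : ∀ r, φ r < m := by
    rintro (i | i | i)
    · exact lt_trans (hat i i) (htm i)
    · exact lt_trans (hst i i) (htm i)
    · exact htm i
  have hφ : Function.Injective φ := by
    rintro (i | i | i) (j | j | j) h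
    · exact congrArg Sum.inl (ha h)
    · have h' : a i = s j := h
      have := has i j
      omega
    · have h' : a i = t j := h
      have := hat i j
      omega
    · have h' : s i = a j := h
      have := has j i
      omega
    · exact congrArg (fun z => Sum.inr (Sum.inl z)) (hs h)
    · have h' : s i = t j := h
      have := hst i j
      omega
    · have h' : t i = a j := h
      have := hat j i
      omega
    · have h' : t i = s j := h
      have := hst j i
      omega
    · exact congrArg (fun z => Sum.inr (Sum.inr z)) (ht.injective h)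
  have hxφ : Function.Injective (fun r => x (φ r)) := fun r r' h =>
    hφ (C.inj _ _ (hφm r) (hφm r') h)
  refine ⟨Finset.univ.image (fun r => x (φ r)), 2 * p, ?_, ?_⟩
  · -- all pairs are covered
    have key : ∀ r r', r ≠ r' → (∃ j, (F j).cov (x (φ r)) (x (φ r'))) ∨
        ∃ j, (G j).cov (x (φ r)) (x (φ r')) := by
      have hsc : ∀ j, s j ∈ cols := fun j => (hcols _).2 (Or.inl ⟨j, rfl⟩)
      have htc : ∀ j, t j ∈ cols := fun j => (hcols _).2 (Or.inr ⟨j, rfl⟩)
      -- the ordered versions
      have k1 : ∀ i j, i ≠ j → ∃ k, (F k).cov (x (a i)) (x (a j)) := fun i j h => ⟨j, hF1 j i h⟩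
      have k2 : ∀ i j, ∃ k, (G k).cov (x (a i)) (x (s j)) := fun i j =>
        ⟨i, hG2 i (s j) (hsc j) (le_of_lt (hst j i))⟩
      have k3 : ∀ i j, ∃ k, (G k).cov (x (a i)) (x (t j)) := by
        intro i j
        rcases le_or_gt j i with h | h
        · exact ⟨j, hG1 j i h⟩
        · exact ⟨i, hG2 i (t j) (htc j) (le_of_lt (ht h))⟩
      have k4 : ∀ i j, i ≠ j → ∃ k, (F k).cov (x (s i)) (x (s j)) := by
        intro i j h
        have hne : s i ≠ s j := fun h' => h (hs h')
        rcases Nat.lt_or_ge (s i) (s j) with h' | h'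
        · exact ⟨i, hF3 i _ (hsc j) h'⟩
        · exact ⟨j, PF.cov_symm (hF3 j _ (hsc i) (by omega))⟩
      have k5 : ∀ i j, ∃ k, (F k).cov (x (s i)) (x (t j)) := fun i j =>
        ⟨i, hF3 i _ (htc j) (hst i j)⟩
      have k6 : ∀ i j, i ≠ j → ∃ k, (G k).cov (x (t i)) (x (t j)) := by
        intro i j h
        have hne : t i ≠ t j := fun h' => h (ht.injective h')
        rcases Nat.lt_or_ge (t i) (t j) with h' | h'
        · exact ⟨i, hG3 i _ (htc j) h'⟩
        · exact ⟨j, PF.cov_symm (hG3 j _ (htc i) (by omega))⟩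
      rintro (i | i | i) (j | j | j) hne
      · exact Or.inl (k1 i j (fun h => hne (by rw [h])))
      · exact Or.inr (k2 i j)
      · exact Or.inr (k3 i j)
      · obtain ⟨k, hk⟩ := k2 j i
        exact Or.inr ⟨k, PF.cov_symm hk⟩
      · exact Or.inl (k4 i j (fun h => hne (by rw [h])))
      · exact Or.inl (k5 i j)
      · obtain ⟨k, hk⟩ := k3 j i
        exact Or.inr ⟨k, PF.cov_symm hk⟩
      · obtain ⟨k, hk⟩ := k5 j i
        exact Or.inl ⟨k, PF.cov_symm hk⟩
      · exact Or.inr (k6 i j (fun h => hne (by rw [h])))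
    have e2 : p + p = 2 * p := by omega
    let ψ : Fin (2 * p) ≃ Fin p ⊕ Fin p := (finCongr e2.symm).trans finSumFinEquiv.symm
    refine ⟨fun i => Sum.elim F G (ψ i), ?_⟩
    intro y hy z hz hyz
    rw [Finset.mem_image] at hy hz
    obtain ⟨r, -, rfl⟩ := hy
    obtain ⟨r', -, rfl⟩ := hz
    rcases key r r' (fun h => hyz (by rw [h])) with ⟨j, hj⟩ | ⟨j, hj⟩
    · refine ⟨ψ.symm (Sum.inl j), ?_⟩
      simp only [Equiv.apply_symm_apply, Sum.elim_inl]
      exact hj
    · refine ⟨ψ.symm (Sum.inr j), ?_⟩
      simp only [Equiv.apply_symm_apply, Sum.elim_inr]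
      exact hj
  · rw [Finset.card_image_of_injective _ hxφ, Finset.card_univ]
    simp only [Fintype.card_sum, Fintype.card_fin]
    omega

end Pool.Agent.Lib.MP_293cc0_an.LG
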