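import Pool.Agent.Lib.MP_293cc0_an.LG.Down

/-!
# MP_293cc0_an: transversals of blocks without down pairs
-/

set_option autoImplicit false

namespace Pool.Agent.Lib.MP_293cc0_an.LG

open Finset

theorem exists_transversal (e : ℕ → ℕ → ℝ) {p w : ℕ} (hp : 1 ≤ p) (hw : 1 ≤ w)
    (st : Fin p → ℕ) (t0 : ℕ)
    (h : ∀ a b, a < b → ∀ t ∈ Finset.Ico t0 (t0 + 2 * p),
      8 * p * p * p * (downPairs e (Finset.Ico (st a) (st a + w))
        (Finset.Ico (st b) (st b + w)) t).card < 2 * (w * w)) :
    ∃ q : Fin p → Fin w, ∀ a b, a < b → ∀ t ∈ Finset.Ico t0 (t0 + 2 * p),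
      e (st a + q a) t ≤ e (st b + q b) t := by
  classical
  let bad : (Fin p × Fin p) × ℕ → Finset (Fin p → Fin w) := fun z =>
    if z.1.1 < z.1.2 then
      Finset.univ.filter (fun q => e (st z.1.2 + q z.1.2) z.2 < e (st z.1.1 + q z.1.1) z.2)
    else ∅
  have hwp : 0 < w ^ p := Nat.pow_pos (by omega)
  have hbad : ∀ z ∈ (Finset.univ : Finset (Fin p × Fin p)) ×ˢ Finset.Ico t0 (t0 + 2 * p),
      4 * p * p * p * (bad z).card ≤ w ^ p := by
    rintro ⟨⟨a, b⟩, t⟩ hz
    rw [Finset.mem_product] at hz
    have ht : t ∈ Finset.Ico t0 (t0 + 2 * p) := hz.2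
    by_cases hab : a < b
    · have h1 : (bad ((a, b), t)) =
          Finset.univ.filter (fun q => e (st b + q b) t < e (st a + q a) t) := by
        show (if a < b then _ else _) = _
        rw [if_pos hab]
      rw [h1]
      have h2 := transversal_count (p := p) (w := w) a b (ne_of_lt hab)
        (fun r r' => e (st b + r') t < e (st a + r) t)
      have h3 : (Finset.univ.filter (fun r : Fin w × Fin w =>
          e (st b + r.2) t < e (st a + r.1) t)).card ≤
          (downPairs e (Finset.Ico (st a) (st a + w)) (Finset.Ico (st b) (st b + w)) t).card := by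
        apply Finset.card_le_card_of_injOn (fun r => (st a + r.1.1, st b + r.2.1))
        · intro r hr
          rw [Finset.coe_filter] at hr
          rw [downPairs, Finset.mem_coe, Finset.mem_filter, Finset.mem_product, Finset.mem_Ico,
            Finset.mem_Ico]
          have e1 := r.1.2
          have e2 := r.2.2
          refine ⟨⟨⟨?_, ?_⟩, ⟨?_, ?_⟩⟩, hr.2⟩
          all_goals (show _ ; simp only; omega)
        · rintro ⟨r1, r2⟩ _ ⟨r1', r2'⟩ _ h
          simp only [Prod.mk.injEq] at h
          exact Prod.ext (Fin.ext (by simp only; omega)) (Fin.ext (by simp only; omega))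
      have h4 := h a b hab t ht
      have h5 : 4 * p * p * p * (Finset.univ.filter (fun q : Fin p → Fin w =>
          e (st b + q b) t < e (st a + q a) t)).card * (w * w) ≤ w ^ p * (w * w) := by
        calc 4 * p * p * p * (Finset.univ.filter (fun q : Fin p → Fin w =>
              e (st b + q b) t < e (st a + q a) t)).card * (w * w)
            = 4 * p * p * p * ((Finset.univ.filter (fun q : Fin p → Fin w =>
              e (st b + q b) t < e (st a + q a) t)).card * (w * w)) := by ring
          _ = 4 * p * p * p * ((Finset.univ.filter (fun r : Fin w × Fin w =>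
              e (st b + r.2) t < e (st a + r.1) t)).card * w ^ p) := by rw [h2]
          _ ≤ 4 * p * p * p * ((downPairs e (Finset.Ico (st a) (st a + w))
              (Finset.Ico (st b) (st b + w)) t).card * w ^ p) :=
              Nat.mul_le_mul_left _ (Nat.mul_le_mul_right _ h3)
          _ = (4 * p * p * p * (downPairs e (Finset.Ico (st a) (st a + w))
              (Finset.Ico (st b) (st b + w)) t).card) * w ^ p := by ring
          _ ≤ (w * w) * w ^ p := by
              apply Nat.mul_le_mul_right
              have : 2 * (4 * p * p * p * (downPairs e (Finset.Ico (st a) (st a + w))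
                (Finset.Ico (st b) (st b + w)) t).card) < 2 * (w * w) := by
                calc 2 * (4 * p * p * p * (downPairs e (Finset.Ico (st a) (st a + w))
                      (Finset.Ico (st b) (st b + w)) t).card) = 8 * p * p * p *
                      (downPairs e (Finset.Ico (st a) (st a + w))
                      (Finset.Ico (st b) (st b + w)) t).card := by ring
                  _ < _ := h4
              omega
          _ = _ := by ring
      exact Nat.le_of_mul_le_mul_right h5 (by positivity)
    · have h1 : (bad ((a, b), t)) = ∅ := by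
        show (if a < b then _ else _) = _
        rw [if_neg hab]
      rw [h1, Finset.card_empty, Nat.mul_zero]
      exact Nat.zero_le _
  by_contra hcon
  have hcov : (Finset.univ : Finset (Fin p → Fin w)) ⊆
      ((Finset.univ : Finset (Fin p × Fin p)) ×ˢ Finset.Ico t0 (t0 + 2 * p)).biUnion bad := by
    intro q _
    rw [Finset.mem_biUnion]
    by_contra hq
    apply hcon
    refine ⟨q, fun a b hab t ht => ?_⟩
    by_contra hlt
    apply hq
    refine ⟨((a, b), t), Finset.mem_product.2 ⟨Finset.mem_univ _, ht⟩, ?_⟩
    show q ∈ (if a < b then _ else _)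
    rw [if_pos hab]
    exact Finset.mem_filter.2 ⟨Finset.mem_univ _, not_le.1 hlt⟩
  have h1 := le_trans (Finset.card_le_card hcov) Finset.card_biUnion_le
  rw [Finset.card_univ, Fintype.card_fun, Fintype.card_fin, Fintype.card_fin] at h1
  have h2 : 4 * p * p * p * ∑ z ∈ (Finset.univ : Finset (Fin p × Fin p)) ×ˢ
      Finset.Ico t0 (t0 + 2 * p), (bad z).card ≤ (p * p * (2 * p)) * w ^ p := by
    rw [Finset.mul_sum]
    refine le_trans (Finset.sum_le_sum hbad) ?_
    rw [Finset.sum_const, smul_eq_mul, Finset.card_product, Finset.card_univ, Fintype.card_prod,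
      Fintype.card_fin, Nat.card_Ico]
    have : t0 + 2 * p - t0 = 2 * p := by omega
    rw [this]
  have h3 : 4 * p * p * p * w ^ p ≤ (p * p * (2 * p)) * w ^ p :=
    le_trans (Nat.mul_le_mul_left _ h1) h2
  have h4 : 4 * p * p * p * w ^ p = 2 * ((p * p * (2 * p)) * w ^ p) := by ring
  have h5 : 0 < (p * p * (2 * p)) * w ^ p := by positivity
  omega

end Pool.Agent.Lib.MP_293cc0_an.LG
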