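import Pool.Agent.Lib.MP_293cc0_an.LG.Case2
import Pool.Agent.Lib.MP_293cc0_an.LG.Const
import Pool.Agent.Lib.MP_293cc0_an.LG.Trans
import Pool.Agent.Lib.MP_293cc0_an.Comb

/-!
# MP_293cc0_an: the L-regime with arbitrary column orders

`main`: an L-comb of length `m ≥ 1024 p^10` has savings `p`.
-/

set_option autoImplicit false

namespace Pool.Agent.Lib.MP_293cc0_an.LG

open Finset

variable {X : Type} [MetricSpace X]

/-- In every group of blocks there is a down triple. -/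
theorem group_down {x : ℕ → X} {m : ℕ} {e : ℕ → ℕ → ℝ} (C : LComb x m e) {p w : ℕ}
    (hno : ¬ Win X p) (hp : 1 ≤ p) (hw : 1 ≤ w) (st : Fin p → ℕ) (t0 : ℕ)
    (hst : ∀ a b, a < b → st a + w ≤ st b) (hst0 : ∀ a, st a + w ≤ t0)
    (hm : t0 + 2 * p ≤ m) :
    ∃ a b, a < b ∧ ∃ t ∈ Finset.Ico t0 (t0 + 2 * p),
      2 * (w * w) ≤ 8 * p * p * p * (downPairs e (Finset.Ico (st a) (st a + w))
        (Finset.Ico (st b) (st b + w)) t).card := by
  classical
  by_contra hcon
  obtain ⟨q, hq⟩ := exists_transversal e hp hw st t0 (by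
    intro a b hab t ht
    by_contra h
    exact hcon ⟨a, b, hab, t, ht, not_lt.1 h⟩)
  apply hno
  have hmono : StrictMono (fun i : Fin p => st i + (q i).1) := by
    intro a b hab
    have h1 := hst a b hab
    have h2 := (q a).2
    show st a + (q a).1 < st b + (q b).1
    omega
  have hlt : ∀ i : Fin p, st i + (q i).1 < t0 := fun i => by
    have h1 := hst0 i
    have h2 := (q i).2
    omega
  obtain ⟨S, k, hS, hk⟩ := const_scheme C (p := p) (fun i => st i + (q i).1)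
    (fun j => t0 + j.1) (fun i => t0 + (2 * p - 1 - i.1)) hmono.injective
    (fun i j h => Fin.ext (by simpa using h))
    (by
      intro i j hij
      have h1 := i.2
      have h2 := j.2
      have h3 : i.1 < j.1 := hij
      show t0 + (2 * p - 1 - j.1) < t0 + (2 * p - 1 - i.1)
      omega)
    (fun i j => by have := hlt i; show st i + (q i).1 < t0 + j.1; omega)
    (fun j i => by
      have h1 := i.2
      have h2 := j.2
      show t0 + j.1 < t0 + (2 * p - 1 - i.1)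
      omega)
    (fun i => by
      have h1 := i.2
      show t0 + (2 * p - 1 - i.1) < m
      omega)
    (by
      intro i j hij k
      rcases eq_or_lt_of_le hij with rfl | hlt'
      · exact le_rfl
      · exact hq i j hlt' _ (Finset.mem_Ico.2 ⟨by omega, by have := k.2; omega⟩))
    (by
      intro i j hij k
      rcases eq_or_lt_of_le hij with rfl | hlt'
      · exact le_rfl
      · exact hq i j hlt' _ (Finset.mem_Ico.2 ⟨by omega, by have := k.2; omega⟩))
  exact ⟨S, k, hS, hk⟩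

/-- One round of data. -/
theorem round_data {x : ℕ → X} {m : ℕ} {e : ℕ → ℕ → ℝ} (C : LComb x m e) {p w f : ℕ}
    (hno : ¬ Win X p) (hp : 1 ≤ p) (hf : 1 ≤ f) (hw : w = 8 * p * p * p * f)
    (s0 t0 : ℕ) (hs0 : 1 ≤ s0) (hst0 : s0 + p * (w + 1) ≤ t0) (hm : t0 + 2 * p ≤ m) :
    ∃ (High Low : Finset ℕ) (d t : ℕ), 1 ≤ d ∧ d < s0 + p * (w + 1) ∧
      High ⊆ Finset.Ico s0 d ∧ Low ⊆ Finset.Ico (d + 1) (s0 + p * (w + 1) - 1) ∧
      f ≤ High.card ∧ f ≤ Low.card ∧ t0 ≤ t ∧ t < t0 + 2 * p ∧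
      ∀ z ∈ Low, ∀ h ∈ High, e z t ≤ e h t := by
  classical
  have hw1 : 1 ≤ w := by
    rw [hw]
    have : 0 < 8 * p * p * p * f := by positivity
    omega
  have hmul : ∀ a b : ℕ, a < b → a * (w + 1) + (w + 1) ≤ b * (w + 1) := by
    intro a b hab
    calc a * (w + 1) + (w + 1) = (a + 1) * (w + 1) := by ring
      _ ≤ b * (w + 1) := Nat.mul_le_mul_right _ hab
  obtain ⟨a, b, hab, t, ht, hdown⟩ := group_down C (p := p) (w := w) hno hp hw1
    (fun i => s0 + i.1 * (w + 1)) t0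
    (by
      intro a b hab
      have := hmul a.1 b.1 hab
      show s0 + a.1 * (w + 1) + w ≤ s0 + b.1 * (w + 1)
      omega)
    (by
      intro a
      have := hmul a.1 p a.2
      show s0 + a.1 * (w + 1) + w ≤ t0
      omega) hm
  have hab' := hmul a.1 b.1 hab
  have hbp := hmul b.1 p b.2
  obtain ⟨A, hA⟩ : ∃ A, A = s0 + a.1 * (w + 1) := ⟨_, rfl⟩
  obtain ⟨B, hB⟩ : ∃ B, B = s0 + b.1 * (w + 1) := ⟨_, rfl⟩
  simp only [← hA, ← hB] at hdown
  have hcA : (Finset.Ico A (A + w)).card = w := by rw [Nat.card_Ico]; omega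
  have hcB : (Finset.Ico B (B + w)).card = w := by rw [Nat.card_Ico]; omega
  have hF : 1 ≤ 8 * p * p * p := by
    have : 0 < 8 * p * p * p := by positivity
    omega
  obtain ⟨High, Low, hH, hL, hHc, hLc, hord⟩ := high_low e hF
    (Finset.Ico A (A + w)) (Finset.Ico B (B + w)) t (by
      rw [Finset.nonempty_Ico]; omega) (by rw [hcA, hcB]; exact hdown)
  rw [hcA] at hHc
  rw [hcB] at hLc
  rw [Finset.mem_Ico] at ht
  refine ⟨High, Low, A + w, t, by omega, by omega, ?_, ?_, ?_, ?_, ht.1, ht.2,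
    fun z hz h hh => hord h hh z hz⟩
  · intro v hv
    have := Finset.mem_Ico.1 (hH hv)
    exact Finset.mem_Ico.2 ⟨by omega, by omega⟩
  · intro v hv
    have := Finset.mem_Ico.1 (hL hv)
    exact Finset.mem_Ico.2 ⟨by omega, by omega⟩
  · rw [hw] at hHc
    exact Nat.le_of_mul_le_mul_left hHc (by omega)
  · rw [hw] at hLc
    exact Nat.le_of_mul_le_mul_left hLc (by omega)

/-- **The L-regime with arbitrary column orders**: an L-comb of length `m ≥ 1024 p^10` has
savings `p`. -/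
theorem main {x : ℕ → X} {m : ℕ} {e : ℕ → ℕ → ℝ} (C : LComb x m e) {p : ℕ} (hp : 1 ≤ p)
    (hm : 1024 * p ^ 10 ≤ m) : Win X p := by
  classical
  by_contra hno
  obtain ⟨E, hE⟩ : ∃ E, E = 4 * p * p := ⟨_, rfl⟩
  obtain ⟨f, hf⟩ : ∃ f, f = 4 * E * E * p := ⟨_, rfl⟩
  obtain ⟨w, hw⟩ : ∃ w, w = 8 * p * p * p * f := ⟨_, rfl⟩
  obtain ⟨n0, hn0⟩ : ∃ n0, n0 = 1 + p * (p * (w + 1)) := ⟨_, rfl⟩
  have hE0 : 0 < E := by rw [hE]; positivity
  have hf0 : 0 < f := by rw [hf]; positivity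
  let τ : ℕ → ℕ := fun i => n0 + 8 * E * p + i * (2 * p + 8 * E * p + 1 + 8 * E * p)
  -- the size
  have hmm : τ p + p ≤ m := by
    refine le_trans ?_ hm
    show n0 + 8 * E * p + p * (2 * p + 8 * E * p + 1 + 8 * E * p) + p ≤ 1024 * p ^ 10
    rw [hn0, hw, hf, hE]
    have hq : ∀ k, p ^ k ≤ p ^ (k + 1) := fun k => Nat.pow_le_pow_right hp (by omega)
    have e0 : 1 ≤ p ^ 10 := Nat.one_le_pow _ _ hp
    have e1 : p ≤ p ^ 10 := by
      calc p = p ^ 1 := (pow_one p).symm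
        _ ≤ p ^ 10 := Nat.pow_le_pow_right hp (by omega)
    have e2 : p ^ 2 ≤ p ^ 10 := Nat.pow_le_pow_right hp (by omega)
    have e3 : p ^ 3 ≤ p ^ 10 := Nat.pow_le_pow_right hp (by omega)
    have e4 : p ^ 4 ≤ p ^ 10 := Nat.pow_le_pow_right hp (by omega)
    calc 1 + p * (p * (8 * p * p * p * (4 * (4 * p * p) * (4 * p * p) * p) + 1)) +
          8 * (4 * p * p) * p +
          p * (2 * p + 8 * (4 * p * p) * p + 1 + 8 * (4 * p * p) * p) + p
        = 512 * p ^ 10 + (1 + 3 * p ^ 2 + 32 * p ^ 3 + 64 * p ^ 4 + 2 * p) := by ring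
      _ ≤ 512 * p ^ 10 + (p ^ 10 + 3 * p ^ 10 + 32 * p ^ 10 + 64 * p ^ 10 + 2 * p ^ 10) := by
        omega
      _ ≤ 1024 * p ^ 10 := by omega
  have hτmono : ∀ i j, i ≤ j → τ i ≤ τ j := by
    intro i j hij
    show n0 + 8 * E * p + i * _ ≤ n0 + 8 * E * p + j * _
    exact Nat.add_le_add_left (Nat.mul_le_mul_right _ hij) _
  have hτstep : ∀ i, τ (i + 1) = τ i + 2 * p + 8 * E * p + 1 + 8 * E * p := by
    intro i
    show n0 + 8 * E * p + (i + 1) * (2 * p + 8 * E * p + 1 + 8 * E * p) =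
      n0 + 8 * E * p + i * (2 * p + 8 * E * p + 1 + 8 * E * p) + 2 * p + 8 * E * p + 1 + 8 * E * p
    ring
  have hτ0 : ∀ i, n0 ≤ τ i := fun i => by
    show n0 ≤ n0 + 8 * E * p + i * _
    omega
  -- the start of the group `i`
  let s0 : ℕ → ℕ := fun i => 1 + (p - 1 - i) * (p * (w + 1))
  have hs0 : ∀ i, i < p → s0 i + p * (w + 1) ≤ n0 := by
    intro i hi
    show 1 + (p - 1 - i) * (p * (w + 1)) + p * (w + 1) ≤ n0
    rw [hn0]
    have : (p - 1 - i) * (p * (w + 1)) + p * (w + 1) = (p - i) * (p * (w + 1)) := by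
      have : p - i = (p - 1 - i) + 1 := by omega
      rw [this]; ring
    have h2 : (p - i) * (p * (w + 1)) ≤ p * (p * (w + 1)) :=
      Nat.mul_le_mul_right _ (by omega)
    omega
  have hs1 : ∀ i, i + 1 < p → s0 (i + 1) + p * (w + 1) = s0 i := by
    intro i hi
    show 1 + (p - 1 - (i + 1)) * (p * (w + 1)) + p * (w + 1) = 1 + (p - 1 - i) * (p * (w + 1))
    have : p - 1 - i = (p - 1 - (i + 1)) + 1 := by omega
    rw [this]; ring
  have hdata : ∀ i, ∃ (High Low : Finset ℕ) (d t : ℕ), i < p → (1 ≤ d ∧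
      d < s0 i + p * (w + 1) ∧
      High ⊆ Finset.Ico (s0 i) d ∧ Low ⊆ Finset.Ico (d + 1) (s0 i + p * (w + 1) - 1) ∧
      f ≤ High.card ∧ f ≤ Low.card ∧ τ i ≤ t ∧ t < τ i + 2 * p ∧
      ∀ z ∈ Low, ∀ h ∈ High, e z t ≤ e h t) := by
    intro i
    by_cases hi : i < p
    · have h1 := hτmono (i + 1) p (by omega)
      have h2 := hτstep i
      obtain ⟨High, Low, d, t, hh⟩ := round_data C (p := p) (w := w) (f := f) hno hp
        hf0 hw (s0 i) (τ i) (by show 1 ≤ 1 + _; omega)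
        (le_trans (hs0 i hi) (hτ0 i)) (by omega)
      exact ⟨High, Low, d, t, fun _ => hh⟩
    · exact ⟨∅, ∅, 0, 0, fun h => absurd h hi⟩
  choose High Low d t hd using hdata
  refine rounds C (p := p) (E := E) (n0 := n0) hno hp (by rw [hE]) Low High τ t d
    (fun i => s0 i - 1) hτ0 hτstep hmm ?_ ?_ ?_ ?_ ?_ ?_
  · intro i hi
    obtain ⟨-, -, -, -, -, -, h1, h2, -⟩ := hd i hi
    exact ⟨h1, h2⟩
  · intro i hi
    obtain ⟨h1, h2, h3, h4, -⟩ := hd i hi
    have h5 := hs0 i hi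
    have h6 : 1 ≤ s0 i := by show 1 ≤ 1 + _; omega
    refine ⟨h1, by omega, ?_, ?_⟩
    · intro v hv
      have := Finset.mem_Ico.1 (h3 hv)
      exact Finset.mem_Ico.2 ⟨by omega, this.2⟩
    · intro v hv
      have := Finset.mem_Ico.1 (h4 hv)
      exact Finset.mem_Ico.2 ⟨this.1, by omega⟩
  · intro i hi
    obtain ⟨-, -, h3, -⟩ := hd i (by omega)
    obtain ⟨-, -, -, h4, -⟩ := hd (i + 1) hi
    obtain ⟨h1', h2', -⟩ := hd i (by omega)
    have h5 := hs0 i (by omega)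
    have h6 := hs1 i hi
    have h7 : 1 ≤ s0 (i + 1) := by show 1 ≤ 1 + _; omega
    have h8 : 1 ≤ p * (w + 1) := by
      have : 0 < p * (w + 1) := by positivity
      omega
    refine ⟨by show 1 ≤ s0 i - 1; omega, by show s0 i - 1 < n0; omega, ?_, ?_⟩
    · intro v hv
      have := Finset.mem_Ico.1 (h4 hv)
      refine Finset.mem_Ico.2 ⟨by omega, ?_⟩
      show v < s0 i - 1
      omega
    · intro v hv
      have := Finset.mem_Ico.1 (h3 hv)
      refine Finset.mem_Ico.2 ⟨?_, by omega⟩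
      show s0 i - 1 + 1 ≤ v
      omega
  · intro i hi
    obtain ⟨-, -, -, -, -, h1, -⟩ := hd i hi
    rw [← hf]; exact h1
  · intro i hi
    obtain ⟨-, -, -, -, h1, -⟩ := hd i hi
    rw [← hf]; exact h1
  · intro i hi
    obtain ⟨-, -, -, -, -, -, -, -, h1⟩ := hd i hi
    exact h1

end Pool.Agent.Lib.MP_293cc0_an.LG

namespace Pool.Agent.Lib.MP_293cc0_an

open Finset

/-- Savings in the form of `Comb.lean`. -/
theorem sav_of_win {X : Type} [MetricSpace X] {p : ℕ} (h : LG.Win X p) : Sav X p := by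
  obtain ⟨S, k, ⟨f, hf⟩, hk⟩ := h
  refine ⟨S, S.card - p, by omega, ?_⟩
  have hlt : ∀ i : Fin k, i.1 < S.card - p := fun i => by have := i.2; omega
  refine ⟨fun i => if h : i.1 < k then f ⟨i.1, h⟩ else
    ⟨∅, fun _ => true, fun _ => 0, by simp, by simp⟩, ?_⟩
  intro a ha b hb hab
  obtain ⟨i, hi⟩ := hf a ha b hb hab
  refine ⟨⟨i.1, hlt i⟩, ?_⟩
  simp only
  rw [dif_pos i.2]
  exact hi

/-- **The L-regime**, for the combs of `Comb.lean`. -/
theorem Comb.savL {X : Type} [MetricSpace X] {N p : ℕ} (C : Comb X N) (hL : C.IsL) (hp : 1 ≤ p)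
    (hN : 1024 * p ^ 10 ≤ N) : Sav X p := by
  apply sav_of_win
  have hC : LG.LComb C.x N C.e := by
    refine ⟨C.inj, ?_, ?_⟩
    · intro i j k l hij hik hjk hkl hl
      exact C.key i j k l (by omega) (by omega) hkl hl hij (by omega) (by omega)
        (hL i j k hik hjk (by omega) hij)
    · intro i j k l hik hjk hkl hl h
      by_cases hij : i = j
      · subst hij
        exact le_rfl
      · have h1 := C.key k i j l hkl (by omega) (by omega) hl (by omega) (by omega) hij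
          (by rw [C.symm k i, C.symm k j]; exact h)
        rw [dist_comm (C.x k) (C.x i), dist_comm (C.x k) (C.x j)] at h1
        exact h1
  exact LG.main hC hp hN

end Pool.Agent.Lib.MP_293cc0_an
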