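import Pool.Agent.Lib.MP_293cc0_an.LG.Drift

/-!
# MP_293cc0_an: the L-regime, the case of a drift from old to new points
-/

set_option autoImplicit false

namespace Pool.Agent.Lib.MP_293cc0_an.LG

open Finset

variable {X : Type} [MetricSpace X]

/-- **Case 1.** `V < d < Z < T` and in all columns of `T` many elements of `V` are above almost all
of `Z`: then `p` functions are saved. -/
theorem case1 {x : ℕ → X} {m : ℕ} {e : ℕ → ℕ → ℝ} (C : LComb x m e) {p E d n n' : ℕ}
    (hp : 1 ≤ p) (hE : 4 * p * p ≤ E) (hd : 1 ≤ d) (hdn : d < n) (hnn : n ≤ n')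
    (hn : n' + p ≤ m) {V Z T : Finset ℕ} (hV : V ⊆ Finset.Ico 1 d)
    (hZ : Z ⊆ Finset.Ico (d + 1) n) (hT : T ⊆ Finset.Ico n n')
    (hVc : 2 * E * p ≤ V.card) (hZc : 2 * p ≤ Z.card) (hTc : 4 * E * p ≤ T.card)
    (h : ∀ t ∈ T, V.card ≤ E * (topSet e E V Z t).card) :
    ∃ (S : Finset X) (k : ℕ), Cov S k ∧ k + p ≤ S.card := by
  classical
  have hE0 : 0 < E := lt_of_lt_of_le (by positivity) hE
  have hT0 : 0 < T.card := lt_of_lt_of_le (by positivity) hTc
  have h1 := card_good e E V Z T (Finset.card_pos.1 hT0) h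
  have h2 : p ≤ (good e E V Z T).card := by
    have : 2 * E * p ≤ 2 * E * (good e E V Z T).card := le_trans hVc h1
    exact Nat.le_of_mul_le_mul_left this (by positivity)
  obtain ⟨Y, hY, hYc⟩ := Finset.exists_subset_card_eq h2
  have hYV : Y ⊆ V := fun v hv => good_subset e E V Z T (hY hv)
  have hYne : Y.Nonempty := by rw [← Finset.card_pos]; omega
  obtain ⟨y, hy⟩ := hYne
  have s0 : St x m d ∅ 0 Set.univ := St.opNs C le_rfl hd (by omega) (St.init x m _)
  have s1 := St.opD C (by omega) s0 (y := y) (Y := Y.erase y) (Finset.notMem_erase _ _)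
    (hV (hYV hy)) (fun v hv => hV (hYV (Finset.mem_of_mem_erase hv)))
  rw [Finset.insert_erase hy, Finset.card_erase_of_mem hy, hYc] at s1
  have s2 := St.opNs C (by omega) (show d + 1 ≤ n by omega) (by omega) s1
  obtain ⟨U, hUZ, hUc, s3⟩ := St.drift_good C (E := E) (p := p) (V := V) (Z := Z) (T := T)
    (by omega) hnn (by omega) s2 hp hE (le_of_eq hYc) hY
    (by
      rw [Finset.disjoint_left]
      intro v hv hv2
      have a1 := Finset.mem_Ico.1 (hV (hYV hv))
      have a2 := Finset.mem_Ico.1 (hZ hv2)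
      omega)
    (by
      intro v hv
      have a2 := Finset.mem_Ico.1 (hZ hv)
      exact Finset.mem_Ico.2 ⟨by omega, a2.2⟩)
    hZc hT hTc
  have s4 := St.opRs C (by omega) (by omega) s3 (by
    intro i hi
    have := Finset.mem_Ico.1 (hZ (hUZ hi))
    show d < i
    omega)
  obtain ⟨S, k, hS, hk⟩ := St.cov C.inj (by omega) s4
  exact ⟨S, k, hS, by rw [hUc, hYc] at hk; exact hk⟩

end Pool.Agent.Lib.MP_293cc0_an.LG
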