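import Pool.Agent.Lib.MP_293cc0_an.LG.Case1

/-!
# MP_293cc0_an: the L-regime, drifts from new to old points
-/

set_option autoImplicit false

namespace Pool.Agent.Lib.MP_293cc0_an.LG

open Finset

variable {X : Type} [MetricSpace X]

/-- Savings `p`. -/
def Win (X : Type) [MetricSpace X] (p : ℕ) : Prop :=
  ∃ (S : Finset X) (k : ℕ), Cov S k ∧ k + p ≤ S.card

/-- If Case 1 does not help, drifts from new to old are possible. -/
theorem newToOld {x : ℕ → X} {m : ℕ} {e : ℕ → ℕ → ℝ} (C : LComb x m e) {p E d n n' : ℕ}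
    (hno : ¬ Win X p)
    (hp : 1 ≤ p) (hE : 4 * p * p ≤ E) (hd : 1 ≤ d) (hdn : d < n) (hnn : n ≤ n')
    (hn : n' + p ≤ m) {V Z T : Finset ℕ} (hV : V ⊆ Finset.Ico 1 d)
    (hZ : Z ⊆ Finset.Ico (d + 1) n) (hT : T ⊆ Finset.Ico n n')
    (hVc : 2 * E * p ≤ V.card) (hZc : 2 * p ≤ Z.card) (hTc : 8 * E * p ≤ T.card) :
    ∃ T' : Finset ℕ, T' ⊆ T ∧ 4 * E * p ≤ T'.card ∧
      ∀ t ∈ T', Z.card ≤ E * (topSet e E Z V t).card := by
  classical
  have hE0 : 0 < E := lt_of_lt_of_le (by positivity) hE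
  refine ⟨T.filter (fun t => ¬ V.card ≤ E * (topSet e E V Z t).card), Finset.filter_subset _ _,
    ?_, ?_⟩
  · by_contra hcon
    have h1 := Finset.card_filter_add_card_filter_not (s := T)
      (fun t => V.card ≤ E * (topSet e E V Z t).card)
    have h2 : 4 * E * p ≤ (T.filter (fun t => V.card ≤ E * (topSet e E V Z t).card)).card := by
      have e1 : 8 * E * p = 4 * E * p + 4 * E * p := by ring
      omega
    exact hno (case1 C hp hE hd hdn hnn hn hV hZ
      (fun t ht => hT (Finset.mem_of_mem_filter _ ht)) hVc hZc h2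
      (fun t ht => (Finset.mem_filter.1 ht).2))
  · intro t ht
    rcases dichotomy e (by omega : 1 ≤ E) V Z t with h | h
    · exact absurd h (Finset.mem_filter.1 ht).2
    · exact h

/-- The good elements of the newer set `Z` for the target `V`. -/
theorem exists_good {x : ℕ → X} {m : ℕ} {e : ℕ → ℕ → ℝ} (C : LComb x m e) {p E d n0 n : ℕ}
    (hno : ¬ Win X p)
    (hp : 1 ≤ p) (hE : 4 * p * p ≤ E) (hd : 1 ≤ d) (hdn : d < n0) (hn0 : n0 ≤ n)
    (hn : n + 8 * E * p + p ≤ m) {V Z : Finset ℕ} (hV : V ⊆ Finset.Ico 1 d)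
    (hZ : Z ⊆ Finset.Ico (d + 1) n0)
    (hVc : 2 * E * p ≤ V.card) (hZc : 4 * E * E * p ≤ Z.card) :
    ∃ G : Finset ℕ, G ⊆ Z ∧ 2 * E * p ≤ G.card ∧
      ∀ (B : Finset ℕ) (w : ℕ) (A : Set ℕ), B ⊆ G → B.card ≤ p → St x m n B w A →
        ∃ U : Finset ℕ, U ⊆ V ∧ U.card = B.card ∧ St x m (n + 8 * E * p) U w A := by
  classical
  have hE0 : 0 < E := lt_of_lt_of_le (by positivity) hE
  have hEp : 2 * p ≤ 2 * E * p := by
    calc 2 * p = 2 * 1 * p := by ring
      _ ≤ 2 * E * p := Nat.mul_le_mul_right _ (Nat.mul_le_mul_left _ (by omega))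
  have hEEp : 2 * p ≤ 4 * E * E * p := by
    calc 2 * p ≤ 2 * E * p := hEp
      _ = 2 * 1 * E * p := by ring
      _ ≤ 4 * E * E * p := by
        apply Nat.mul_le_mul_right
        apply Nat.mul_le_mul_right
        omega
  obtain ⟨T, hT, hTc, hTt⟩ := newToOld C (p := p) (E := E) (d := d) (n := n)
    (n' := n + 8 * E * p) (V := V) (Z := Z) (T := Finset.Ico n (n + 8 * E * p)) hno hp hE hd
    (by omega) (by omega) hn hV
    (by
      intro v hv
      have := Finset.mem_Ico.1 (hZ hv)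
      exact Finset.mem_Ico.2 ⟨this.1, by omega⟩)
    (fun t ht => ht) hVc (by omega) (by rw [Nat.card_Ico]; omega)
  have hT0 : 0 < T.card := lt_of_lt_of_le (by positivity) hTc
  have hg := card_good e E Z V T (Finset.card_pos.1 hT0) hTt
  refine ⟨good e E Z V T, good_subset _ _ _ _ _, ?_, ?_⟩
  · have h1 : 2 * E * (2 * E * p) ≤ 2 * E * (good e E Z V T).card := by
      calc 2 * E * (2 * E * p) = 4 * E * E * p := by ring
        _ ≤ Z.card := hZc
        _ ≤ _ := hg
    exact Nat.le_of_mul_le_mul_left h1 (by positivity)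
  · intro B w A hB hBp hst
    refine St.drift_good C (by omega) (by omega) (by omega) hst hp hE hBp hB ?_ ?_
      (by omega) hT hTc
    · rw [Finset.disjoint_left]
      intro v hv hv2
      have a1 := Finset.mem_Ico.1 (hZ (good_subset _ _ _ _ _ (hB hv)))
      have a2 := Finset.mem_Ico.1 (hV hv2)
      omega
    · intro v hv
      have a2 := Finset.mem_Ico.1 (hV hv)
      exact Finset.mem_Ico.2 ⟨a2.1, by omega⟩

/-- One round: a gain, a drift, and the waiting function is used. -/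
theorem round_step {x : ℕ → X} {m : ℕ} {e : ℕ → ℕ → ℝ} (C : LComb x m e)
    {p E d n0 τ t τ' : ℕ} (hno : ¬ Win X p)
    (hp : 1 ≤ p) (hE : 4 * p * p ≤ E) (hd : 1 ≤ d) (hdn : d < n0) (hn0 : n0 ≤ τ)
    (hτt : τ ≤ t) (htτ : t < τ')
    (hn : τ' + 8 * E * p + p ≤ m) {High Low H : Finset ℕ} (hHigh : High ⊆ Finset.Ico 1 d)
    (hLow : Low ⊆ Finset.Ico (d + 1) n0) (hH : H ⊆ High)
    (hHc : 2 * E * p ≤ H.card) (hLc : 4 * E * E * p ≤ Low.card)
    (hord : ∀ z ∈ Low, ∀ h ∈ High, e z t ≤ e h t) :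
    ∃ G : Finset ℕ, G ⊆ Low ∧ 2 * E * p ≤ G.card ∧
      ∀ (B : Finset ℕ) (A : Set ℕ), B ⊆ G → B.card < p → St x m τ B 0 A →
        ∃ U : Finset ℕ, U ⊆ H ∧ U.card = B.card + 1 ∧
          St x m (τ' + 8 * E * p + 1) U 0 Set.univ := by
  classical
  have hE0 : 0 < E := lt_of_lt_of_le (by positivity) hE
  have hEp : 2 * p ≤ 2 * E * p := by
    calc 2 * p = 2 * 1 * p := by ring
      _ ≤ 2 * E * p := Nat.mul_le_mul_right _ (Nat.mul_le_mul_left _ (by omega))
  obtain ⟨G, hG, hGc, hGd⟩ := exists_good C (p := p) (E := E) (d := d) (n0 := n0) (n := τ')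
    (V := H) (Z := Low) hno hp hE hd hdn (by omega) hn (fun v hv => hHigh (hH hv)) hLow hHc hLc
  refine ⟨G, hG, hGc, ?_⟩
  intro B A hB hBp hst
  have s1 := St.opNs C (by omega) hτt (by omega) hst
  have hex : (G \ B).Nonempty := by
    rw [← Finset.card_pos, Finset.card_sdiff_of_subset hB]
    omega
  obtain ⟨y, hy⟩ := hex
  rw [Finset.mem_sdiff] at hy
  have hyI : y ∈ Finset.Ico 1 t := by
    have := Finset.mem_Ico.1 (hLow (hG hy.1))
    exact Finset.mem_Ico.2 ⟨by omega, by omega⟩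
  have hins : insert y B ⊆ G := by
    intro v hv
    rcases Finset.mem_insert.1 hv with rfl | hv
    · exact hy.1
    · exact hB hv
  have hcard : (insert y B).card = B.card + 1 := Finset.card_insert_of_notMem hy.2
  by_cases hBe : B = ∅
  · subst hBe
    have s2 := St.opG0 C (by omega) s1 hyI
    have s3 := St.opNs C (by omega) (show t + 1 ≤ τ' by omega) (by omega) s2
    obtain ⟨U, hU, hUc, s4⟩ := hGd {y} 0 A (by
      intro v hv
      rw [Finset.mem_singleton] at hv
      rw [hv]; exact hy.1) (by rw [Finset.card_singleton]; exact hp) s3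
    refine ⟨U, hU, by rw [hUc]; simp, ?_⟩
    exact (St.opN C (by omega) (by omega) s4).anyA _
  · have hBne : B.Nonempty := Finset.nonempty_iff_ne_empty.2 hBe
    have s2 := St.opG C (by omega) s1 hBne (y := y) (Finset.mem_sdiff.2 ⟨hyI, hy.2⟩)
      (A := {v | v ∈ High}) (by
        intro z hz
        have hz' : z ∈ High := hz
        have a1 := Finset.mem_Ico.1 (hHigh hz')
        refine Or.inr ⟨by omega, ?_, ?_⟩
        · intro hzB
          have a2 := Finset.mem_Ico.1 (hLow (hG (hB hzB)))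
          omega
        · intro j hj
          exact hord j (hG (hB hj)) z hz')
    have s3 := St.opNs C (by omega) (show t + 1 ≤ τ' by omega) (by omega) s2
    obtain ⟨U, hU, hUc, s4⟩ := hGd (insert y B) 1 _ hins (by omega) s3
    refine ⟨U, hU, by rw [hUc, hcard], ?_⟩
    exact (St.opR C (by omega) (by omega) s4 (fun i hi => hH (hU hi))).anyA _

/-- All the rounds. -/
theorem rounds {x : ℕ → X} {m : ℕ} {e : ℕ → ℕ → ℝ} (C : LComb x m e) {p E n0 : ℕ}
    (hno : ¬ Win X p) (hp : 1 ≤ p) (hE : 4 * p * p ≤ E) (Low High : ℕ → Finset ℕ)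
    (τ tt sep sep' : ℕ → ℕ) (hn0 : ∀ i, n0 ≤ τ i)
    (hτ : ∀ i, τ (i + 1) = τ i + 2 * p + 8 * E * p + 1 + 8 * E * p)
    (hm : τ p + p ≤ m)
    (htt : ∀ i, i < p → τ i ≤ tt i ∧ tt i < τ i + 2 * p)
    (hsep : ∀ i, i < p → 1 ≤ sep i ∧ sep i < n0 ∧ High i ⊆ Finset.Ico 1 (sep i) ∧
      Low i ⊆ Finset.Ico (sep i + 1) n0)
    (hsep' : ∀ i, i + 1 < p → 1 ≤ sep' i ∧ sep' i < n0 ∧ Low (i + 1) ⊆ Finset.Ico 1 (sep' i) ∧
      High i ⊆ Finset.Ico (sep' i + 1) n0)
    (hLc : ∀ i, i < p → 4 * E * E * p ≤ (Low i).card)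
    (hHc : ∀ i, i < p → 4 * E * E * p ≤ (High i).card)
    (hord : ∀ i, i < p → ∀ z ∈ Low i, ∀ h ∈ High i, e z (tt i) ≤ e h (tt i)) : False := by
  classical
  have hE0 : 0 < E := lt_of_lt_of_le (by positivity) hE
  have hτmono : ∀ i j, i ≤ j → τ i ≤ τ j := by
    intro i j hij
    induction j, hij using Nat.le_induction with
    | base => exact le_rfl
    | succ k hk ih => rw [hτ k]; omega
  have h2E : 2 * E * p ≤ 4 * E * E * p := by
    calc 2 * E * p = 2 * 1 * E * p := by ring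
      _ ≤ 4 * E * E * p := by
        apply Nat.mul_le_mul_right
        apply Nat.mul_le_mul_right
        omega
  have main : ∀ k i, i + k + 1 = p → ∃ G : Finset ℕ, G ⊆ Low i ∧ 2 * E * p ≤ G.card ∧
      ∀ (B : Finset ℕ) (A : Set ℕ), B ⊆ G → B.card = i → St x m (τ i) B 0 A → Win X p := by
    intro k
    induction k with
    | zero =>
      intro i hi
      have hip : i < p := by omega
      obtain ⟨a1, a2, a3, a4⟩ := hsep i hip
      obtain ⟨b1, b2⟩ := htt i hip
      have hτp : τ (i + 1) = τ p := by rw [show i + 1 = p by omega]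
      have hτi := hτ i
      obtain ⟨G, hG, hGc, hGd⟩ := round_step C (p := p) (E := E) (d := sep i) (n0 := n0)
        (τ := τ i) (t := tt i) (τ' := τ i + 2 * p) hno hp hE a1 a2 (hn0 i) b1 b2
        (by omega) a3 a4 (fun v hv => hv) (le_trans h2E (hHc i hip)) (hLc i hip)
        (hord i hip)
      refine ⟨G, hG, hGc, ?_⟩
      intro B A hB hBc hst
      obtain ⟨U, hU, hUc, s⟩ := hGd B A hB (by omega) hst
      obtain ⟨S, k, hS, hk⟩ := St.cov C.inj (by omega) s
      exact ⟨S, k, hS, by omega⟩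
    | succ k ih =>
      intro i hi
      have hip : i < p := by omega
      obtain ⟨G', hG', hGc', hGd'⟩ := ih (i + 1) (by omega)
      obtain ⟨a1, a2, a3, a4⟩ := hsep i hip
      obtain ⟨c1, c2, c3, c4⟩ := hsep' i (by omega)
      obtain ⟨b1, b2⟩ := htt i hip
      have hτi := hτ i
      have hτp := hτmono (i + 1) p (by omega)
      obtain ⟨H, hH, hHcc, hHd⟩ := exists_good C (p := p) (E := E) (d := sep' i) (n0 := n0)
        (n := τ i + 2 * p + 8 * E * p + 1) (V := G') (Z := High i) hno hp hE c1 c2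
        (by have := hn0 i; omega) (by omega) (fun v hv => c3 (hG' hv)) c4 hGc' (hHc i hip)
      obtain ⟨G, hG, hGc, hGd⟩ := round_step C (p := p) (E := E) (d := sep i) (n0 := n0)
        (τ := τ i) (t := tt i) (τ' := τ i + 2 * p) hno hp hE a1 a2 (hn0 i) b1 b2
        (by omega) a3 a4 hH hHcc (hLc i hip) (hord i hip)
      refine ⟨G, hG, hGc, ?_⟩
      intro B A hB hBc hst
      obtain ⟨U, hU, hUc, s⟩ := hGd B A hB (by omega) hst
      obtain ⟨U', hU', hUc', s'⟩ := hHd U 0 _ hU (by omega) s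
      rw [← hτi] at s'
      exact hGd' U' _ hU' (by omega) s'
  obtain ⟨G, -, -, hGd⟩ := main (p - 1) 0 (by omega)
  have h0 : St x m (τ 0) ∅ 0 Set.univ := by
    have := hsep 0 (by omega)
    have h2 := hn0 0
    have h3 := hτmono 0 p (by omega)
    exact St.opNs C le_rfl (by omega) (by omega) (St.init x m _)
  exact hno (hGd ∅ _ (Finset.empty_subset _) Finset.card_empty h0)

end Pool.Agent.Lib.MP_293cc0_an.LG
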