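import Mathlib

/-!
# MP_293cc0_an: counting lemmas for families of column orders

`e a t` is the height of `a` in the column `t`.
-/

set_option autoImplicit false

namespace Pool.Agent.Lib.MP_293cc0_an.LG

open Finset

/-- Elements of `Z` above `a` in the column `t`. -/
noncomputable def above (e : ℕ → ℕ → ℝ) (Z : Finset ℕ) (a t : ℕ) : Finset ℕ :=
  Z.filter (fun z => e a t < e z t)

/-- The elements of `Y` with less than `|Z| / E` elements of `Z` above them. -/
noncomputable def topSet (e : ℕ → ℕ → ℝ) (E : ℕ) (Y Z : Finset ℕ) (t : ℕ) : Finset ℕ :=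
  Y.filter (fun a => E * (above e Z a t).card < Z.card)

theorem dichotomy (e : ℕ → ℕ → ℝ) {E : ℕ} (hE : 1 ≤ E) (Y Z : Finset ℕ) (t : ℕ) :
    Y.card ≤ E * (topSet e E Y Z t).card ∨ Z.card ≤ E * (topSet e E Z Y t).card := by
  classical
  by_contra hcon
  rw [not_or, not_le, not_le] at hcon
  obtain ⟨h1, h2⟩ := hcon
  have hsub : topSet e E Y Z t ⊆ Y := Finset.filter_subset _ _
  have hlt : (topSet e E Y Z t).card < Y.card :=
    lt_of_le_of_lt (Nat.le_mul_of_pos_left _ (by omega)) h1
  have hne : (Y \ topSet e E Y Z t).Nonempty := by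
    rw [← Finset.card_pos, Finset.card_sdiff_of_subset hsub]
    omega
  obtain ⟨a, ha, hmax⟩ := Finset.exists_max_image _ (fun a => e a t) hne
  rw [Finset.mem_sdiff] at ha
  have h3 : Z.card ≤ E * (above e Z a t).card := by
    by_contra h
    exact ha.2 (Finset.mem_filter.2 ⟨ha.1, by omega⟩)
  have h4 : above e Z a t ⊆ topSet e E Z Y t := by
    intro z hz
    rw [above, Finset.mem_filter] at hz
    rw [topSet, Finset.mem_filter]
    refine ⟨hz.1, lt_of_le_of_lt ?_ h1⟩
    apply Nat.mul_le_mul_left
    apply Finset.card_le_card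
    intro b hb
    rw [above, Finset.mem_filter] at hb
    by_contra hbn
    have := hmax b (Finset.mem_sdiff.2 ⟨hb.1, hbn⟩)
    linarith [hz.2, hb.2]
  have h5 := Nat.mul_le_mul_left E (Finset.card_le_card h4)
  omega

/-- The columns in `T` in which `a` is a top element. -/
noncomputable def topCols (e : ℕ → ℕ → ℝ) (E : ℕ) (Z : Finset ℕ) (T : Finset ℕ) (a : ℕ) :
    Finset ℕ := T.filter (fun t => E * (above e Z a t).card < Z.card)

/-- The elements which are top elements in many columns. -/
noncomputable def good (e : ℕ → ℕ → ℝ) (E : ℕ) (Y Z T : Finset ℕ) : Finset ℕ :=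
  Y.filter (fun a => T.card ≤ 2 * E * (topCols e E Z T a).card)

theorem good_subset (e : ℕ → ℕ → ℝ) (E : ℕ) (Y Z T : Finset ℕ) : good e E Y Z T ⊆ Y :=
  Finset.filter_subset _ _

theorem card_good (e : ℕ → ℕ → ℝ) (E : ℕ) (Y Z T : Finset ℕ) (hT : T.Nonempty)
    (h : ∀ t ∈ T, Y.card ≤ E * (topSet e E Y Z t).card) :
    Y.card ≤ 2 * E * (good e E Y Z T).card := by
  classical
  have h1 : ∑ t ∈ T, (topSet e E Y Z t).card = ∑ a ∈ Y, (topCols e E Z T a).card := by
    simp only [topSet, topCols]
    exact Finset.sum_card_bipartiteAbove_eq_sum_card_bipartiteBelow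
      (fun t a => E * (above e Z a t).card < Z.card)
  have h2 : T.card * Y.card ≤ E * ∑ a ∈ Y, (topCols e E Z T a).card := by
    rw [← h1, Finset.mul_sum]
    calc T.card * Y.card = ∑ t ∈ T, Y.card := by rw [Finset.sum_const, smul_eq_mul]
      _ ≤ _ := Finset.sum_le_sum h
  have h3 : 2 * E * ∑ a ∈ Y, (topCols e E Z T a).card ≤
      (good e E Y Z T).card * (2 * E * T.card) + Y.card * T.card := by
    rw [Finset.mul_sum, ← Finset.sum_filter_add_sum_filter_not Y
      (fun a => T.card ≤ 2 * E * (topCols e E Z T a).card)]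
    apply Nat.add_le_add
    · calc ∑ a ∈ Y.filter (fun a => T.card ≤ 2 * E * (topCols e E Z T a).card),
            2 * E * (topCols e E Z T a).card
          ≤ ∑ a ∈ Y.filter (fun a => T.card ≤ 2 * E * (topCols e E Z T a).card),
            2 * E * T.card := by
            apply Finset.sum_le_sum
            intro a _
            exact Nat.mul_le_mul_left _ (Finset.card_le_card (Finset.filter_subset _ _))
        _ = _ := by rw [Finset.sum_const, smul_eq_mul]; rfl
    · calc ∑ a ∈ Y.filter (fun a => ¬ T.card ≤ 2 * E * (topCols e E Z T a).card),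
            2 * E * (topCols e E Z T a).card
          ≤ ∑ a ∈ Y.filter (fun a => ¬ T.card ≤ 2 * E * (topCols e E Z T a).card),
            T.card := by
            apply Finset.sum_le_sum
            intro a ha
            rw [Finset.mem_filter] at ha
            omega
        _ = (Y.filter (fun a => ¬ T.card ≤ 2 * E * (topCols e E Z T a).card)).card * T.card := by
            rw [Finset.sum_const, smul_eq_mul]
        _ ≤ _ := Nat.mul_le_mul_right _ (Finset.card_le_card (Finset.filter_subset _ _))
  have hTp : 0 < T.card := Finset.card_pos.2 hT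
  have h4 : T.card * Y.card ≤ T.card * (2 * E * (good e E Y Z T).card) := by
    have : 2 * (T.card * Y.card) ≤ 2 * E * ∑ a ∈ Y, (topCols e E Z T a).card := by
      calc 2 * (T.card * Y.card) ≤ 2 * (E * ∑ a ∈ Y, (topCols e E Z T a).card) :=
            Nat.mul_le_mul_left _ h2
        _ = _ := by ring
    have e1 : Y.card * T.card = T.card * Y.card := Nat.mul_comm _ _
    have e2 : (good e E Y Z T).card * (2 * E * T.card) =
      T.card * (2 * E * (good e E Y Z T).card) := by ring
    omega
  exact Nat.le_of_mul_le_mul_left h4 hTp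

/-- Good targets. -/
noncomputable def targets (e : ℕ → ℕ → ℝ) (E p : ℕ) (Z T Y : Finset ℕ) : Finset ℕ :=
  Z.filter (fun z => ∀ y ∈ Y, 2 * p * ((topCols e E Z T y).filter (fun t => e y t < e z t)).card <
    (topCols e E Z T y).card)

theorem card_targets (e : ℕ → ℕ → ℝ) {E p : ℕ} (hp : 1 ≤ p) (hE : 4 * p * p ≤ E)
    (Z T Y : Finset ℕ) (hYp : Y.card ≤ p)
    (hY : ∀ y ∈ Y, 0 < (topCols e E Z T y).card) :
    Z.card ≤ 2 * (targets e E p Z T Y).card := by
  classical
  let bad : ℕ → Finset ℕ := fun y => Z.filter (fun z =>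
    (topCols e E Z T y).card ≤ 2 * p * ((topCols e E Z T y).filter (fun t => e y t < e z t)).card)
  have hbad : ∀ y ∈ Y, E * (bad y).card ≤ 2 * p * Z.card := by
    intro y hy
    have hc := hY y hy
    have h1 : ∑ z ∈ Z, ((topCols e E Z T y).filter (fun t => e y t < e z t)).card =
        ∑ t ∈ topCols e E Z T y, (above e Z y t).card := by
      simp only [above]
      exact Finset.sum_card_bipartiteAbove_eq_sum_card_bipartiteBelow
        (fun z t => e y t < e z t)
    have h2 : E * ∑ z ∈ Z, ((topCols e E Z T y).filter (fun t => e y t < e z t)).card ≤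
        (topCols e E Z T y).card * Z.card := by
      rw [h1, Finset.mul_sum]
      calc ∑ t ∈ topCols e E Z T y, E * (above e Z y t).card
          ≤ ∑ t ∈ topCols e E Z T y, Z.card := by
            apply Finset.sum_le_sum
            intro t ht
            rw [topCols, Finset.mem_filter] at ht
            omega
        _ = _ := by rw [Finset.sum_const, smul_eq_mul]
    have h3 : (bad y).card * (topCols e E Z T y).card ≤
        2 * p * ∑ z ∈ Z, ((topCols e E Z T y).filter (fun t => e y t < e z t)).card := by
      rw [Finset.mul_sum]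
      calc (bad y).card * (topCols e E Z T y).card
          = ∑ z ∈ bad y, (topCols e E Z T y).card := by rw [Finset.sum_const, smul_eq_mul]
        _ ≤ ∑ z ∈ bad y,
            2 * p * ((topCols e E Z T y).filter (fun t => e y t < e z t)).card := by
            apply Finset.sum_le_sum
            intro z hz
            exact (Finset.mem_filter.1 hz).2
        _ ≤ _ := Finset.sum_le_sum_of_subset (Finset.filter_subset _ _)
    have h4 : (topCols e E Z T y).card * (E * (bad y).card) ≤
        (topCols e E Z T y).card * (2 * p * Z.card) := by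
      calc (topCols e E Z T y).card * (E * (bad y).card)
          = E * ((bad y).card * (topCols e E Z T y).card) := by ring
        _ ≤ E * (2 * p *
            ∑ z ∈ Z, ((topCols e E Z T y).filter (fun t => e y t < e z t)).card) :=
            Nat.mul_le_mul_left _ h3
        _ = 2 * p * (E *
            ∑ z ∈ Z, ((topCols e E Z T y).filter (fun t => e y t < e z t)).card) := by ring
        _ ≤ 2 * p * ((topCols e E Z T y).card * Z.card) := Nat.mul_le_mul_left _ h2
        _ = _ := by ring
    exact Nat.le_of_mul_le_mul_left h4 hc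
  have hcov : Z ⊆ targets e E p Z T Y ∪ Y.biUnion bad := by
    intro z hz
    rw [Finset.mem_union, Finset.mem_biUnion]
    by_cases h : ∃ y ∈ Y, z ∈ bad y
    · exact Or.inr h
    · left
      rw [targets, Finset.mem_filter]
      refine ⟨hz, fun y hy => ?_⟩
      by_contra hcon
      exact h ⟨y, hy, Finset.mem_filter.2 ⟨hz, by omega⟩⟩
  have h1 : Z.card ≤ (targets e E p Z T Y).card + ∑ y ∈ Y, (bad y).card :=
    le_trans (Finset.card_le_card hcov) (le_trans (Finset.card_union_le _ _)
      (Nat.add_le_add_left Finset.card_biUnion_le _))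
  have h2 : E * ∑ y ∈ Y, (bad y).card ≤ p * (2 * p * Z.card) := by
    rw [Finset.mul_sum]
    calc ∑ y ∈ Y, E * (bad y).card ≤ ∑ y ∈ Y, 2 * p * Z.card := Finset.sum_le_sum hbad
      _ = Y.card * (2 * p * Z.card) := by rw [Finset.sum_const, smul_eq_mul]
      _ ≤ _ := Nat.mul_le_mul_right _ hYp
  have h3 : 2 * ∑ y ∈ Y, (bad y).card ≤ Z.card := by
    have h4 : 4 * p * p * ∑ y ∈ Y, (bad y).card ≤ p * (2 * p * Z.card) :=
      le_trans (Nat.mul_le_mul_right _ hE) h2
    have h5 : (2 * p * p) * (2 * ∑ y ∈ Y, (bad y).card) ≤ (2 * p * p) * Z.card := by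
      calc (2 * p * p) * (2 * ∑ y ∈ Y, (bad y).card) = 4 * p * p * ∑ y ∈ Y, (bad y).card := by
            ring
        _ ≤ p * (2 * p * Z.card) := h4
        _ = _ := by ring
    exact Nat.le_of_mul_le_mul_left h5 (by positivity)
  omega

/-- If the targets are good, every `y` has many clear columns. -/
theorem card_clear (e : ℕ → ℕ → ℝ) {E p : ℕ} (hp : 1 ≤ p) (Z T Y U : Finset ℕ)
    (hU : U ⊆ targets e E p Z T Y) (hUp : U.card ≤ p) {y : ℕ} (hy : y ∈ Y)
    (hg : T.card ≤ 2 * E * (topCols e E Z T y).card) :
    T.card ≤ 4 * E * (T.filter (fun t => ∀ u ∈ U, e u t ≤ e y t)).card := by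
  classical
  have h1 : topCols e E Z T y ⊆ T.filter (fun t => ∀ u ∈ U, e u t ≤ e y t) ∪
      U.biUnion (fun u => (topCols e E Z T y).filter (fun t => e y t < e u t)) := by
    intro t ht
    rw [Finset.mem_union, Finset.mem_biUnion]
    by_cases h : ∃ u ∈ U, e y t < e u t
    · obtain ⟨u, hu, h2⟩ := h
      exact Or.inr ⟨u, hu, Finset.mem_filter.2 ⟨ht, h2⟩⟩
    · left
      rw [Finset.mem_filter]
      refine ⟨(Finset.mem_filter.1 ht).1, fun u hu => ?_⟩
      by_contra hcon
      exact h ⟨u, hu, not_le.1 hcon⟩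
  have h2 : (topCols e E Z T y).card ≤ (T.filter (fun t => ∀ u ∈ U, e u t ≤ e y t)).card +
      ∑ u ∈ U, ((topCols e E Z T y).filter (fun t => e y t < e u t)).card :=
    le_trans (Finset.card_le_card h1) (le_trans (Finset.card_union_le _ _)
      (Nat.add_le_add_left Finset.card_biUnion_le _))
  have h3 : 2 * p * ∑ u ∈ U, ((topCols e E Z T y).filter (fun t => e y t < e u t)).card ≤
      p * (topCols e E Z T y).card := by
    rw [Finset.mul_sum]
    calc ∑ u ∈ U, 2 * p * ((topCols e E Z T y).filter (fun t => e y t < e u t)).card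
        ≤ ∑ u ∈ U, (topCols e E Z T y).card := by
          apply Finset.sum_le_sum
          intro u hu
          have := (Finset.mem_filter.1 (hU hu)).2 y hy
          exact le_of_lt this
      _ = U.card * (topCols e E Z T y).card := by rw [Finset.sum_const, smul_eq_mul]
      _ ≤ _ := Nat.mul_le_mul_right _ hUp
  have h4 : 2 * ∑ u ∈ U, ((topCols e E Z T y).filter (fun t => e y t < e u t)).card ≤
      (topCols e E Z T y).card := by
    have h5 : p * (2 * ∑ u ∈ U, ((topCols e E Z T y).filter (fun t => e y t < e u t)).card) ≤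
        p * (topCols e E Z T y).card := by
      calc p * (2 * ∑ u ∈ U, ((topCols e E Z T y).filter (fun t => e y t < e u t)).card)
          = 2 * p * ∑ u ∈ U, ((topCols e E Z T y).filter (fun t => e y t < e u t)).card := by ring
        _ ≤ _ := h3
    exact Nat.le_of_mul_le_mul_left h5 (by omega)
  have h6 : (topCols e E Z T y).card ≤ 2 * (T.filter (fun t => ∀ u ∈ U, e u t ≤ e y t)).card := by
    omega
  calc T.card ≤ 2 * E * (topCols e E Z T y).card := hg
    _ ≤ 2 * E * (2 * (T.filter (fun t => ∀ u ∈ U, e u t ≤ e y t)).card) :=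
      Nat.mul_le_mul_left _ h6
    _ = _ := by ring

end Pool.Agent.Lib.MP_293cc0_an.LG
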