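import Pool.Agent.Lib.MP_293cc0_an.LG.Count

/-!
# MP_293cc0_an: down triples

`V` older, `Z` newer, `t` a column. Either almost all pairs `(a, z)` are increasing in the column
`t`, or there are `High ⊆ V` and `Low ⊆ Z`, both dense, with all of `High` above all of `Low`.
-/

set_option autoImplicit false

namespace Pool.Agent.Lib.MP_293cc0_an.LG

open Finset

/-- The number of pairs `(a, z)` with `z` strictly below `a` in the column `t`. -/
noncomputable def downPairs (e : ℕ → ℕ → ℝ) (V Z : Finset ℕ) (t : ℕ) : Finset (ℕ × ℕ) :=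
  (V ×ˢ Z).filter (fun q => e q.2 t < e q.1 t)

theorem high_low (e : ℕ → ℕ → ℝ) {F : ℕ} (hF : 1 ≤ F) (V Z : Finset ℕ) (t : ℕ)
    (hZ : Z.Nonempty) (h : 2 * (V.card * Z.card) ≤ F * (downPairs e V Z t).card) :
    ∃ High Low : Finset ℕ, High ⊆ V ∧ Low ⊆ Z ∧ V.card ≤ F * High.card ∧
      Z.card ≤ F * Low.card ∧ ∀ a ∈ High, ∀ z ∈ Low, e z t ≤ e a t := by
  classical
  -- the threshold
  let P : Finset ℕ := Z.filter (fun z => Z.card ≤ F * (Z.filter (fun z' => e z' t ≤ e z t)).card)
  have hP : P.Nonempty := by
    obtain ⟨z, hz, hmax⟩ := Finset.exists_max_image Z (fun z => e z t) hZ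
    refine ⟨z, Finset.mem_filter.2 ⟨hz, ?_⟩⟩
    have : Z.filter (fun z' => e z' t ≤ e z t) = Z := Finset.filter_true_of_mem hmax
    rw [this]
    exact Nat.le_mul_of_pos_left _ (by omega)
  obtain ⟨z0, hz0, hmin⟩ := Finset.exists_min_image P (fun z => e z t) hP
  have hz0' := Finset.mem_filter.1 hz0
  refine ⟨V.filter (fun a => e z0 t < e a t), Z.filter (fun z => e z t ≤ e z0 t),
    Finset.filter_subset _ _, Finset.filter_subset _ _, ?_, hz0'.2, ?_⟩
  · by_contra hcon
    rw [not_le] at hcon
    -- the elements strictly below `z0`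
    have hlow : F * (Z.filter (fun z => e z t < e z0 t)).card ≤ Z.card := by
      by_cases hne : (Z.filter (fun z => e z t < e z0 t)).Nonempty
      · obtain ⟨z1, hz1, hmax⟩ := Finset.exists_max_image _ (fun z => e z t) hne
        have hz1' := Finset.mem_filter.1 hz1
        have hz1P : z1 ∉ P := fun hz => absurd (hmin z1 hz) (not_le.2 hz1'.2)
        have h3 : ¬ (Z.card ≤ F * (Z.filter (fun z' => e z' t ≤ e z1 t)).card) := fun h =>
          hz1P (Finset.mem_filter.2 ⟨hz1'.1, h⟩)
        have h4 : Z.filter (fun z => e z t < e z0 t) ⊆ Z.filter (fun z' => e z' t ≤ e z1 t) := by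
          intro z hz
          have := hmax z hz
          exact Finset.mem_filter.2 ⟨(Finset.mem_filter.1 hz).1, this⟩
        have h5 := Nat.mul_le_mul_left F (Finset.card_le_card h4)
        omega
      · rw [Finset.not_nonempty_iff_eq_empty] at hne
        rw [hne]
        simp
    have hsub : downPairs e V Z t ⊆ V ×ˢ (Z.filter (fun z => e z t < e z0 t)) ∪
        (V.filter (fun a => e z0 t < e a t)) ×ˢ Z := by
      rintro ⟨a, z⟩ hq
      rw [downPairs, Finset.mem_filter, Finset.mem_product] at hq
      rw [Finset.mem_union, Finset.mem_product, Finset.mem_product, Finset.mem_filter,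
        Finset.mem_filter]
      by_cases h6 : e z t < e z0 t
      · exact Or.inl ⟨hq.1.1, hq.1.2, h6⟩
      · refine Or.inr ⟨⟨hq.1.1, ?_⟩, hq.1.2⟩
        have := hq.2
        simp only at this
        linarith [not_lt.1 h6]
    have h6 := le_trans (Finset.card_le_card hsub) (Finset.card_union_le _ _)
    rw [Finset.card_product, Finset.card_product] at h6
    have h7 := Nat.mul_le_mul_left F h6
    have hZ0 : 0 < Z.card := Finset.card_pos.2 hZ
    have h8 : F * (V.card * (Z.filter (fun z => e z t < e z0 t)).card) ≤ V.card * Z.card := by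
      calc F * (V.card * (Z.filter (fun z => e z t < e z0 t)).card)
          = V.card * (F * (Z.filter (fun z => e z t < e z0 t)).card) := by ring
        _ ≤ _ := Nat.mul_le_mul_left _ hlow
    have h9 : F * ((V.filter (fun a => e z0 t < e a t)).card * Z.card) < V.card * Z.card := by
      calc F * ((V.filter (fun a => e z0 t < e a t)).card * Z.card)
          = (F * (V.filter (fun a => e z0 t < e a t)).card) * Z.card := by ring
        _ < _ := Nat.mul_lt_mul_of_pos_right hcon hZ0
    rw [Nat.mul_add] at h7
    omega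
  · intro a ha z hz
    have h1 := (Finset.mem_filter.1 ha).2
    have h2 := (Finset.mem_filter.1 hz).2
    linarith

/-- Counting transversals. -/
theorem transversal_count {p w : ℕ} (a b : Fin p) (hab : a ≠ b) (R : Fin w → Fin w → Prop)
    [∀ i j, Decidable (R i j)] :
    (Finset.univ.filter (fun q : Fin p → Fin w => R (q a) (q b))).card * (w * w) =
      (Finset.univ.filter (fun r : Fin w × Fin w => R r.1 r.2)).card * w ^ p := by
  classical
  have h1 : (Finset.univ.filter (fun q : Fin p → Fin w => R (q a) (q b))).card * (w * w) =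
      ((Finset.univ.filter (fun q : Fin p → Fin w => R (q a) (q b))) ×ˢ
        (Finset.univ : Finset (Fin w × Fin w))).card := by
    rw [Finset.card_product, Finset.card_univ, Fintype.card_prod, Fintype.card_fin]
  have h2 : (Finset.univ.filter (fun r : Fin w × Fin w => R r.1 r.2)).card * w ^ p =
      ((Finset.univ : Finset (Fin p → Fin w)) ×ˢ
        (Finset.univ.filter (fun r : Fin w × Fin w => R r.1 r.2))).card := by
    rw [Finset.card_product, Finset.card_univ, Fintype.card_fun, Fintype.card_fin,
      Fintype.card_fin, Nat.mul_comm]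
  rw [h1, h2]
  let φ : (Fin p → Fin w) × (Fin w × Fin w) → (Fin p → Fin w) × (Fin w × Fin w) := fun q =>
    (Function.update (Function.update q.1 a q.2.1) b q.2.2, (q.1 a, q.1 b))
  have hφ : ∀ q, φ (φ q) = q := by
    rintro ⟨q, ⟨i, j⟩⟩
    simp only [φ, Prod.mk.injEq]
    refine ⟨?_, ?_, ?_⟩
    · funext c
      by_cases hcb : c = b
      · subst hcb
        simp
      · by_cases hca : c = a
        · subst hca
          simp [hcb]
        · simp [hcb, hca]
    · rw [Function.update_of_ne hab, Function.update_self]
    · rw [Function.update_self]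
  apply Finset.card_nbij' φ φ
  · rintro ⟨q, ⟨i, j⟩⟩ hq
    simp only [Finset.coe_product, Finset.coe_filter, Finset.coe_univ, Set.mem_prod,
      Set.mem_setOf_eq, Finset.mem_univ, true_and, Set.mem_univ, and_true, φ] at hq ⊢
    exact hq
  · rintro ⟨q, ⟨i, j⟩⟩ hq
    simp only [Finset.coe_product, Finset.coe_filter, Finset.coe_univ, Set.mem_prod,
      Set.mem_setOf_eq, Finset.mem_univ, true_and, Set.mem_univ, and_true, φ] at hq ⊢
    rw [Function.update_of_ne hab, Function.update_self, Function.update_self]
    exact hq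
  · intro q _
    exact hφ q
  · intro q _
    exact hφ q

end Pool.Agent.Lib.MP_293cc0_an.LG
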