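import Pool.Agent.Lib.MP_293cc0_an.LG.OpD
import Pool.Agent.Lib.MP_293cc0_an.LG.Count

/-!
# MP_293cc0_an: the L-regime, the drift
-/

set_option autoImplicit false

namespace Pool.Agent.Lib.MP_293cc0_an.LG

open Finset

variable {X : Type} [MetricSpace X]

theorem St.drift_aux {x : ℕ → X} {m : ℕ} {e : ℕ → ℕ → ℝ} (C : LComb x m e) {w : ℕ} {A : Set ℕ}
    (T U : Finset ℕ) : ∀ (k n : ℕ) (Y1 U1 U2 : Finset ℕ), 1 ≤ n → n + k ≤ m →
      St x m n (Y1 ∪ U1) w A → Disjoint Y1 U → U1 ∪ U2 = U → Disjoint U1 U2 →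
      U ⊆ Finset.Ico 1 n → Y1.card = U2.card →
      (∀ y ∈ Y1, Y1.card ≤
        ((Finset.Ico n (n + k)).filter (fun t => t ∈ T ∧ ∀ u ∈ U, e u t ≤ e y t)).card) →
      St x m (n + k) U w A := by
  classical
  intro k
  induction k with
  | zero =>
    intro n Y1 U1 U2 h1 hn hst hYU hU hU12 hUn hcard hcl
    have hY : Y1 = ∅ := by
      by_contra hne
      obtain ⟨y, hy⟩ := Finset.nonempty_iff_ne_empty.2 hne
      have := hcl y hy
      have h0 : 0 < Y1.card := Finset.card_pos.2 ⟨y, hy⟩
      simp only [Nat.add_zero, Finset.Ico_self, Finset.filter_empty, Finset.card_empty] at this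
      omega
    subst hY
    have hU2 : U2 = ∅ := by
      rw [Finset.card_empty] at hcard
      exact Finset.card_eq_zero.1 hcard.symm
    subst hU2
    rw [Finset.union_empty] at hU
    subst hU
    rw [Finset.empty_union] at hst
    exact hst
  | succ k ih =>
    intro n Y1 U1 U2 h1 hn hst hYU hU hU12 hUn hcard hcl
    have hen : n + (k + 1) = n + 1 + k := by omega
    by_cases h : ∃ y ∈ Y1, n ∈ T ∧ ∀ u ∈ U, e u n ≤ e y n
    · obtain ⟨y, hy, hnT, hyU⟩ := h
      obtain ⟨b, hb, hmax⟩ := Finset.exists_max_image Y1 (fun a => e a n) ⟨y, hy⟩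
      have hU2 : U2.Nonempty := by
        rw [← Finset.card_pos, ← hcard]
        exact Finset.card_pos.2 ⟨y, hy⟩
      obtain ⟨u, hu⟩ := hU2
      have huU : u ∈ U := by rw [← hU]; exact Finset.mem_union_right _ hu
      have hbU : b ∉ U := fun h => (Finset.disjoint_left.1 hYU hb) h
      have hbU1 : b ∉ U1 := fun h => hbU (by rw [← hU]; exact Finset.mem_union_left _ h)
      have huY : u ∉ Y1 := fun h => (Finset.disjoint_left.1 hYU h) huU
      have huU1 : u ∉ U1 := fun h => (Finset.disjoint_left.1 hU12 h) hu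
      have htop : ∀ a ∈ Y1 ∪ U1, e a n ≤ e b n := by
        intro a ha
        rcases Finset.mem_union.1 ha with ha | ha
        · exact hmax a ha
        · exact le_trans (hyU a (by rw [← hU]; exact Finset.mem_union_left _ ha)) (hmax y hy)
      have hst2 := St.opS C (by omega) hst (y := b) (u := u) (Finset.mem_union_left _ hb) htop
        (Finset.mem_sdiff.2 ⟨hUn huU, fun h => by
          rcases Finset.mem_union.1 h with h | h
          · exact huY h
          · exact huU1 h⟩)
      have heq : insert u ((Y1 ∪ U1).erase b) = (Y1.erase b) ∪ (insert u U1) := by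
        ext v
        simp only [Finset.mem_insert, Finset.mem_erase, Finset.mem_union]
        constructor
        · rintro (rfl | ⟨h1, h2 | h2⟩)
          · exact Or.inr (Or.inl rfl)
          · exact Or.inl ⟨h1, h2⟩
          · exact Or.inr (Or.inr h2)
        · rintro (⟨h1, h2⟩ | rfl | h2)
          · exact Or.inr ⟨h1, Or.inl h2⟩
          · exact Or.inl rfl
          · exact Or.inr ⟨fun h => hbU1 (h ▸ h2), Or.inr h2⟩
      rw [heq] at hst2
      rw [hen]
      refine ih (n + 1) (Y1.erase b) (insert u U1) (U2.erase u) (by omega) (by omega) hst2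
        ?_ ?_ ?_ ?_ ?_ ?_
      · exact Finset.disjoint_of_subset_left (Finset.erase_subset _ _) hYU
      · rw [← hU]
        ext v
        simp only [Finset.mem_insert, Finset.mem_erase, Finset.mem_union]
        by_cases hvu : v = u
        · subst hvu; simp [hu]
        · simp [hvu]
      · rw [Finset.disjoint_left]
        intro v hv hv2
        rw [Finset.mem_erase] at hv2
        rcases Finset.mem_insert.1 hv with rfl | hv
        · exact hv2.1 rfl
        · exact (Finset.disjoint_left.1 hU12 hv) hv2.2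
      · intro v hv
        have := Finset.mem_Ico.1 (hUn hv)
        exact Finset.mem_Ico.2 ⟨this.1, by omega⟩
      · rw [Finset.card_erase_of_mem hb, Finset.card_erase_of_mem hu, hcard]
      · intro z hz
        have h3 := hcl z (Finset.mem_of_mem_erase hz)
        rw [Finset.card_erase_of_mem hb]
        have hsub : (Finset.Ico n (n + (k + 1))).filter
            (fun t => t ∈ T ∧ ∀ u ∈ U, e u t ≤ e z t) ⊆
            insert n ((Finset.Ico (n + 1) (n + 1 + k)).filter
              (fun t => t ∈ T ∧ ∀ u ∈ U, e u t ≤ e z t)) := by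
          intro t ht
          rw [Finset.mem_filter, Finset.mem_Ico] at ht
          rw [Finset.mem_insert, Finset.mem_filter, Finset.mem_Ico]
          by_cases htn : t = n
          · exact Or.inl htn
          · exact Or.inr ⟨by omega, ht.2⟩
        have h4 := le_trans (Finset.card_le_card hsub) (Finset.card_insert_le _ _)
        omega
    · have hst2 := St.opN C h1 (by omega) hst
      rw [hen]
      refine ih (n + 1) Y1 U1 U2 (by omega) (by omega) hst2 hYU hU hU12 ?_ hcard ?_
      · intro v hv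
        have := Finset.mem_Ico.1 (hUn hv)
        exact Finset.mem_Ico.2 ⟨this.1, by omega⟩
      · intro z hz
        refine le_trans (hcl z hz) (Finset.card_le_card ?_)
        intro t ht
        rw [Finset.mem_filter, Finset.mem_Ico] at ht ⊢
        refine ⟨?_, ht.2⟩
        have htn : t ≠ n := by
          rintro rfl
          exact h ⟨z, hz, ht.2⟩
        omega

/-- **Drift.** The unserved set `Y` is replaced by `U`. -/
theorem St.drift {x : ℕ → X} {m : ℕ} {e : ℕ → ℕ → ℝ} (C : LComb x m e) {w : ℕ} {A : Set ℕ}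
    {n n' : ℕ} (h1 : 1 ≤ n) (hnn : n ≤ n') (hn : n' ≤ m) {Y U T : Finset ℕ}
    (hst : St x m n Y w A) (hYU : Disjoint Y U) (hU : U ⊆ Finset.Ico 1 n)
    (hc : Y.card = U.card) (hT : T ⊆ Finset.Ico n n')
    (hcl : ∀ y ∈ Y, Y.card ≤ (T.filter (fun t => ∀ u ∈ U, e u t ≤ e y t)).card) :
    St x m n' U w A := by
  classical
  obtain ⟨k, rfl⟩ : ∃ k, n' = n + k := ⟨n' - n, by omega⟩
  refine St.drift_aux C T U k n Y ∅ U h1 hn ?_ hYU (Finset.empty_union _)
    (Finset.disjoint_empty_left _) hU hc ?_
  · rw [Finset.union_empty]; exact hst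
  · intro y hy
    refine le_trans (hcl y hy) (Finset.card_le_card ?_)
    intro t ht
    rw [Finset.mem_filter] at ht ⊢
    exact ⟨hT ht.1, ht⟩

/-- **Drift to a prescribed set.** If `Y` consists of good elements of `V` for the columns `T` and
the target set `Z`, then `Y` can be replaced by a subset of `Z`. -/
theorem St.drift_good {x : ℕ → X} {m : ℕ} {e : ℕ → ℕ → ℝ} (C : LComb x m e) {w : ℕ} {A : Set ℕ}
    {n n' E p : ℕ} (h1 : 1 ≤ n) (hnn : n ≤ n') (hn : n' ≤ m) {Y V Z T : Finset ℕ}
    (hst : St x m n Y w A) (hp : 1 ≤ p) (hE : 4 * p * p ≤ E) (hYp : Y.card ≤ p)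
    (hY : Y ⊆ good e E V Z T) (hYZ : Disjoint Y Z) (hZ : Z ⊆ Finset.Ico 1 n)
    (hZc : 2 * p ≤ Z.card) (hT : T ⊆ Finset.Ico n n') (hTc : 4 * E * p ≤ T.card) :
    ∃ U : Finset ℕ, U ⊆ Z ∧ U.card = Y.card ∧ St x m n' U w A := by
  classical
  have hE0 : 0 < E := lt_of_lt_of_le (by positivity) hE
  have hT0 : 0 < T.card := lt_of_lt_of_le (by positivity) hTc
  have hg : ∀ y ∈ Y, T.card ≤ 2 * E * (topCols e E Z T y).card := fun y hy =>
    (Finset.mem_filter.1 (hY hy)).2
  have hpos : ∀ y ∈ Y, 0 < (topCols e E Z T y).card := by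
    intro y hy
    by_contra h
    have h0 : (topCols e E Z T y).card = 0 := by omega
    have := hg y hy
    rw [h0, Nat.mul_zero] at this
    omega
  have h2 := card_targets e hp hE Z T Y hYp hpos
  obtain ⟨U, hU, hUc⟩ := Finset.exists_subset_card_eq
    (s := targets e E p Z T Y) (n := Y.card) (by omega)
  have hUZ : U ⊆ Z := fun v hv => (Finset.mem_filter.1 (hU hv)).1
  refine ⟨U, hUZ, hUc, ?_⟩
  refine St.drift C h1 hnn hn hst (Finset.disjoint_of_subset_right hUZ hYZ)
    (fun v hv => hZ (hUZ hv)) hUc.symm hT ?_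
  intro y hy
  have h3 := card_clear e hp Z T Y U hU (by omega) hy (hg y hy)
  have h4 : 4 * E * p ≤ 4 * E * (T.filter (fun t => ∀ u ∈ U, e u t ≤ e y t)).card :=
    le_trans hTc h3
  have h5 := Nat.le_of_mul_le_mul_left h4 (by positivity)
  omega

end Pool.Agent.Lib.MP_293cc0_an.LG
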