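import Pool.Agent.Lib.MP_293cc0_an.Basic

/-!
# MP_293cc0_an: the L-regime, extension of partial potentials

`x : ℕ → X` is a comb of length `m` in the L-regime with column orders given by `e`:

* `(L)` for `i, j < k < l < m`, `i ≠ j`: `ij|kl` is the smallest of the three sums;
* `(O)` for `i, j < k < l < m` with `e i k ≤ e j k`: `ik|jl ≤ jk|il`.

`Srv x m n f u`: the partial potential `f` can serve `u` at every column `t ≥ n`.
`Wt x m n f A`: the partial potential `f` waits; at a column `r` it can serve any tokens in `A`.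
-/

set_option autoImplicit false

namespace Pool.Agent.Lib.MP_293cc0_an.LG

open Finset

/-- A comb of length `m` in the L-regime with column orders `e`. -/
structure LComb {X : Type} [MetricSpace X] (x : ℕ → X) (m : ℕ) (e : ℕ → ℕ → ℝ) : Prop where
  inj : ∀ i j, i < m → j < m → x i = x j → i = j
  L : ∀ i j k l, i ≠ j → i < k → j < k → k < l → l < m →
    dist (x i) (x j) + dist (x k) (x l) ≤ dist (x i) (x k) + dist (x j) (x l)
  O : ∀ i j k l, i < k → j < k → k < l → l < m → e i k ≤ e j k →
    dist (x i) (x k) + dist (x j) (x l) ≤ dist (x j) (x k) + dist (x i) (x l)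

variable {X : Type} [MetricSpace X]

/-- The domain consists of old points. -/
def Past (x : ℕ → X) (n : ℕ) (f : PF X) : Prop := ∀ y ∈ f.D, ∃ i, i < n ∧ x i = y

/-- `f` can serve `u` at all columns `t` with `n ≤ t < m`. -/
def Srv (x : ℕ → X) (m n : ℕ) (f : PF X) (u : X) : Prop :=
  u ∈ f.D ∧ ∀ t, n ≤ t → t < m → ∀ y ∈ f.D, f.s y = f.s u →
    dist u (x t) - f.p u ≤ dist y (x t) - f.p y

/-- `f` waits for tokens in `A`. -/
def Wt (x : ℕ → X) (m n : ℕ) (f : PF X) (A : Set ℕ) : Prop :=
  ∃ v, Srv x m n f v ∧ ∀ y ∈ A, y < m → x y ∉ f.D ∧ ∀ r, n ≤ r → y < r → r < m →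
    ∀ a ∈ f.D, f.s a ≠ f.s v →
      dist (x y) (x r) + f.p v + f.p a ≤ dist v (x r) + dist (x y) a

theorem Past.mono {x : ℕ → X} {n n' : ℕ} {f : PF X} (h : Past x n f) (hn : n ≤ n') :
    Past x n' f := fun y hy => by
  obtain ⟨i, hi, e⟩ := h y hy
  exact ⟨i, lt_of_lt_of_le hi hn, e⟩

theorem Srv.mono {x : ℕ → X} {m n n' : ℕ} {f : PF X} {u : X} (h : Srv x m n f u) (hn : n ≤ n') :
    Srv x m n' f u := ⟨h.1, fun t ht => h.2 t (le_trans hn ht)⟩

theorem Wt.mono {x : ℕ → X} {m n n' : ℕ} {f : PF X} {A A' : Set ℕ} (h : Wt x m n f A)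
    (hn : n ≤ n') (hA : A' ⊆ A) : Wt x m n' f A' := by
  obtain ⟨v, hv, h2⟩ := h
  exact ⟨v, hv.mono hn, fun y hy hym => ⟨(h2 y (hA hy) hym).1,
    fun r hr => (h2 y (hA hy) hym).2 r (le_trans hn hr)⟩⟩

/-- Serve `u` at the column `n`. -/
theorem exists_ext {x : ℕ → X} {m : ℕ} {e : ℕ → ℕ → ℝ} (C : LComb x m e) {n : ℕ} (hn : n < m)
    {f : PF X} {u : X} (hp : Past x n f) (hs : Srv x m n f u) :
    ∃ f' : PF X, Past x (n + 1) f' ∧ (∀ a b, f.cov a b → f'.cov a b) ∧ f'.cov u (x n) ∧
      Srv x m (n + 1) f' u ∧ Srv x m (n + 1) f' (x n) ∧ Wt x m (n + 1) f' {j | n < j} := by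
  classical
  have hnD : x n ∉ f.D := by
    intro h
    obtain ⟨i, hi, e1⟩ := hp _ h
    have := C.inj i n (by omega) hn e1
    omega
  have hne : ∀ y ∈ f.D, y ≠ x n := fun y hy h => hnD (h ▸ hy)
  have hun : u ≠ x n := hne u hs.1
  have hsn : ∀ y ∈ f.D, Function.update f.s (x n) (!f.s u) y = f.s y := fun y hy =>
    Function.update_of_ne (hne y hy) _ _
  have hpn : ∀ y ∈ f.D, Function.update f.p (x n) (dist u (x n) - f.p u) y = f.p y := fun y hy =>
    Function.update_of_ne (hne y hy) _ _
  let f' : PF X :=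
    { D := insert (x n) f.D
      s := Function.update f.s (x n) (!f.s u)
      p := Function.update f.p (x n) (dist u (x n) - f.p u)
      feas := by
        intro a ha b hb hab
        rw [Finset.mem_insert] at ha hb
        rcases ha with rfl | ha
        · rcases hb with rfl | hb
          · exact absurd rfl hab
          · rw [Function.update_self, hpn b hb]
            rw [Function.update_self, hsn b hb] at hab
            have hbu : f.s b = f.s u := by
              revert hab; cases f.s b <;> cases f.s u <;> simp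
            have := hs.2 n le_rfl hn b hb hbu
            rw [dist_comm (x n) b]
            linarith
        · rcases hb with rfl | hb
          · rw [Function.update_self, hpn a ha]
            rw [Function.update_self, hsn a ha] at hab
            have hbu : f.s a = f.s u := by
              revert hab; cases f.s a <;> cases f.s u <;> simp
            have := hs.2 n le_rfl hn a ha hbu
            linarith
          · rw [hpn a ha, hpn b hb]
            rw [hsn a ha, hsn b hb] at hab
            exact f.feas a ha b hb hab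
      tight := by
        intro a ha
        rw [Finset.mem_insert] at ha
        rcases ha with rfl | ha
        · refine ⟨u, Finset.mem_insert_of_mem hs.1, ?_, ?_⟩
          · rw [Function.update_self, hsn u hs.1]; cases f.s u <;> simp
          · rw [Function.update_self, hpn u hs.1, dist_comm (x n) u]; ring
        · obtain ⟨b, hb, h1, h2⟩ := f.tight a ha
          refine ⟨b, Finset.mem_insert_of_mem hb, ?_, ?_⟩
          · rw [hsn a ha, hsn b hb]; exact h1
          · rw [hpn a ha, hpn b hb]; exact h2 }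
  have hD : ∀ y, y ∈ f'.D ↔ y = x n ∨ y ∈ f.D := fun y => Finset.mem_insert
  have hs1 : ∀ y ∈ f.D, f'.s y = f.s y := hsn
  have hp1 : ∀ y ∈ f.D, f'.p y = f.p y := hpn
  have hs0 : f'.s (x n) = (!f.s u) := by
    show Function.update f.s (x n) (!f.s u) (x n) = (!f.s u)
    rw [Function.update_self]
  have hp0 : f'.p (x n) = dist u (x n) - f.p u := by
    show Function.update f.p (x n) (dist u (x n) - f.p u) (x n) = dist u (x n) - f.p u
    rw [Function.update_self]
  have hSu : Srv x m (n + 1) f' u := by
    refine ⟨(hD u).2 (Or.inr hs.1), fun t ht htm y hy hsy => ?_⟩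
    rcases (hD y).1 hy with rfl | hy'
    · rw [hs0, hs1 u hs.1] at hsy
      exact absurd hsy (by cases f.s u <;> simp)
    · rw [hp1 u hs.1, hp1 y hy']
      rw [hs1 u hs.1, hs1 y hy'] at hsy
      exact hs.2 t (by omega) htm y hy' hsy
  obtain ⟨iu, hiu, eu⟩ := hp u hs.1
  have hSn : Srv x m (n + 1) f' (x n) := by
    refine ⟨(hD _).2 (Or.inl rfl), fun t ht htm y hy hsy => ?_⟩
    rcases (hD y).1 hy with rfl | hy'
    · exact le_rfl
    · rw [hp0, hp1 y hy']
      rw [hs0, hs1 y hy'] at hsy
      obtain ⟨iy, hiy, ey⟩ := hp y hy'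
      have hneq : iy ≠ iu := by
        intro h
        subst h
        rw [← ey, ← eu] at hsy
        revert hsy; cases f.s (x iy) <;> simp
      have hL := C.L iy iu n t hneq hiy hiu (by omega) htm
      rw [ey, eu] at hL
      have hf := f.feas y hy' u hs.1 (by rw [hsy]; cases f.s u <;> simp)
      have h2 := C.L iu iy n t (Ne.symm hneq) hiu hiy (by omega) htm
      rw [ey, eu] at h2
      have h3 := dist_comm u y
      linarith
  refine ⟨f', ?_, ?_, ?_, hSu, hSn, ?_⟩
  · intro y hy
    rcases (hD y).1 hy with rfl | hy'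
    · exact ⟨n, by omega, rfl⟩
    · obtain ⟨i, hi, e1⟩ := hp y hy'
      exact ⟨i, by omega, e1⟩
  · rintro a b ⟨ha, hb, h1, h2⟩
    exact ⟨(hD a).2 (Or.inr ha), (hD b).2 (Or.inr hb), by rw [hs1 a ha, hs1 b hb]; exact h1,
      by rw [hp1 a ha, hp1 b hb]; exact h2⟩
  · refine ⟨(hD u).2 (Or.inr hs.1), (hD _).2 (Or.inl rfl), ?_, ?_⟩
    · rw [hs0, hs1 u hs.1]; cases f.s u <;> simp
    · rw [hp0, hp1 u hs.1]; ring
  · refine ⟨x n, hSn, fun y hy hym => ⟨?_, fun r hr hyr hrm a ha hsa => ?_⟩⟩
    · intro h
      rcases (hD _).1 h with h | h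
      · have := C.inj y n hym hn h
        have : n < y := hy
        omega
      · obtain ⟨i, hi, e1⟩ := hp _ h
        have := C.inj i y (by omega) hym e1
        have : n < y := hy
        omega
    · have hny : n < y := hy
      rcases (hD a).1 ha with rfl | ha'
      · exact absurd rfl hsa
      · rw [hp0, hp1 a ha']
        rw [hs0, hs1 a ha'] at hsa
        have hau : f.s a = f.s u := by
          revert hsa; cases f.s a <;> cases f.s u <;> simp
        have h1 := hs.2 y (by omega) hym a ha' hau
        have h2 := C.L iu n y r (by omega) (by omega) hny hyr hrm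
        rw [eu] at h2
        have h3 := dist_comm (x y) a
        linarith

end Pool.Agent.Lib.MP_293cc0_an.LG
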