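import Pool.Agent.Lib.MP_293cc0_an.LG.Main

/-!
# MP_293cc0_an: the class {L, M1}

If `e a b ≤ e b c` for all `a < b < c` (types `L` and `M1` only), then the points with even index form
an L-comb: for `a < b < c < d < t` the inequalities `ab|cd ≤ bc|ad` and `bc|dt ≤ cd|bt` add up to
`ab|dt ≤ ad|bt`.
-/

set_option autoImplicit false

namespace Pool.Agent.Lib.MP_293cc0_an

open Finset

/-- **The class {L, M1}.** -/
theorem Comb.savLM {X : Type} [MetricSpace X] {N p : ℕ} (C : Comb X N)
    (hH : ∀ a b c, a < b → b < c → c + 1 < N → C.e a b ≤ C.e b c) (hp : 1 ≤ p)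
    (hN : 2 * (1024 * p ^ 10) ≤ N) : Sav X p := by
  -- the basic inequality: `ab|ct ≤ bc|at` for `a < b < c < t`
  have h1 : ∀ a b c t, a < b → b < c → c < t → t < N →
      dist (C.x a) (C.x b) + dist (C.x c) (C.x t) ≤
        dist (C.x b) (C.x c) + dist (C.x a) (C.x t) := by
    intro a b c t hab hbc hct ht
    have := C.key b a c t (by omega) (by omega) hct ht (by omega) (by omega) (by omega)
      (by rw [C.symm b a]; exact hH a b c hab hbc (by omega))
    have h2 := dist_comm (C.x b) (C.x a)
    linarith
  apply sav_of_win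
  have hC : LG.LComb (fun i => C.x (2 * i)) (1024 * p ^ 10)
      (fun i j => C.e (2 * i) (2 * j)) := by
    refine ⟨?_, ?_, ?_⟩
    · intro i j hi hj h
      have := C.inj (2 * i) (2 * j) (by omega) (by omega) h
      omega
    · intro i j k l hij hik hjk hkl hl
      rcases Nat.lt_or_ge i j with hlt | hge
      · -- `i < j`: use the point between `j` and `k`
        have a1 := h1 (2 * i) (2 * j) (2 * j + 1) (2 * k) (by omega) (by omega) (by omega)
          (by omega)
        have a2 := h1 (2 * j) (2 * j + 1) (2 * k) (2 * l) (by omega) (by omega) (by omega)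
          (by omega)
        show dist (C.x (2 * i)) (C.x (2 * j)) + dist (C.x (2 * k)) (C.x (2 * l)) ≤
          dist (C.x (2 * i)) (C.x (2 * k)) + dist (C.x (2 * j)) (C.x (2 * l))
        linarith
      · -- `j < i`
        have a1 := h1 (2 * j) (2 * i) (2 * k) (2 * l) (by omega) (by omega) (by omega)
          (by omega)
        show dist (C.x (2 * i)) (C.x (2 * j)) + dist (C.x (2 * k)) (C.x (2 * l)) ≤
          dist (C.x (2 * i)) (C.x (2 * k)) + dist (C.x (2 * j)) (C.x (2 * l))
        have a2 := dist_comm (C.x (2 * i)) (C.x (2 * j))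
        linarith
    · intro i j k l hik hjk hkl hl h
      by_cases hij : i = j
      · subst hij
        exact le_rfl
      · have h' : C.e (2 * i) (2 * k) ≤ C.e (2 * j) (2 * k) := h
        have a1 := C.key (2 * k) (2 * i) (2 * j) (2 * l) (by omega) (by omega) (by omega)
          (by omega) (by omega) (by omega) (by omega)
          (by rw [C.symm (2 * k) (2 * i), C.symm (2 * k) (2 * j)]; exact h')
        show dist (C.x (2 * i)) (C.x (2 * k)) + dist (C.x (2 * j)) (C.x (2 * l)) ≤
          dist (C.x (2 * j)) (C.x (2 * k)) + dist (C.x (2 * i)) (C.x (2 * l))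
        have a2 := dist_comm (C.x (2 * k)) (C.x (2 * i))
        have a3 := dist_comm (C.x (2 * k)) (C.x (2 * j))
        linarith
  exact LG.main hC hp le_rfl

end Pool.Agent.Lib.MP_293cc0_an
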