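import Pool.Agent.Lib.MP_293cc0_an.LG.State

/-!
# MP_293cc0_an: the L-regime, the move (D)

All the servers of the points of `insert y Y` serve their point at the column `n`; one of them
becomes the server of `n`, the others wait for tokens newer than `n`.
-/

set_option autoImplicit false

namespace Pool.Agent.Lib.MP_293cc0_an.LG

open Finset

variable {X : Type} [MetricSpace X]

theorem St.opD {x : ℕ → X} {m : ℕ} {e : ℕ → ℕ → ℝ} (C : LComb x m e) {n : ℕ}
    (hn : n < m) {A : Set ℕ} (h : St x m n ∅ 0 A) {y : ℕ} {Y : Finset ℕ} (hyY : y ∉ Y)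
    (hy : y ∈ Finset.Ico 1 n) (hY : Y ⊆ Finset.Ico 1 n) :
    St x m (n + 1) (insert y Y) Y.card {j | n < j} := by
  classical
  obtain ⟨hB, srv, wt, h2, h3, h4⟩ := h
  obtain ⟨g, hg⟩ := St.ext C hn h2
  have hy1 := Finset.mem_Ico.1 hy
  rw [Finset.sdiff_empty] at h2 h4 hg
  have hmem : ∀ v, v ∈ Finset.Ico 1 (n + 1) \ (insert y Y) ↔
      v = n ∨ (v ∈ Finset.Ico 1 n ∧ v ∉ insert y Y) := by
    intro v
    rw [Finset.mem_sdiff, Finset.mem_Ico, Finset.mem_Ico]
    by_cases hv : v ∈ insert y Y
    · have hvn : v ∈ Finset.Ico 1 n := by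
        rcases Finset.mem_insert.1 hv with rfl | h
        · exact hy
        · exact hY h
      rw [Finset.mem_Ico] at hvn
      simp only [hv, not_true, and_false, or_false, false_iff]
      omega
    · simp only [hv, not_false_iff, and_true]
      omega
  have hne : ∀ v, v ∈ Finset.Ico 1 n → v ≠ n := by
    intro v hv
    rw [Finset.mem_Ico] at hv
    omega
  let eq := Y.equivFin
  refine ⟨?_, fun v => if v = n then g y else g v, fun j => g (eq.symm j).1, ?_, ?_, ?_⟩
  · intro v hv
    have hvn : v ∈ Finset.Ico 1 n := by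
      rcases Finset.mem_insert.1 hv with rfl | h
      · exact hy
      · exact hY h
    rw [Finset.mem_Ico] at hvn ⊢
    omega
  · intro v hv
    rcases (hmem v).1 hv with rfl | ⟨hv, hvu⟩
    · simp only [if_true]
      exact ⟨(hg y hy).1, (hg y hy).2.2.2.2.1⟩
    · simp only [if_neg (hne v hv)]
      exact ⟨(hg v hv).1, (hg v hv).2.2.2.1⟩
  · intro j
    have := hg (eq.symm j).1 (hY (eq.symm j).2)
    exact ⟨this.1, this.2.2.2.2.2⟩
  · have hall : ∀ v ∈ Finset.Ico 1 n, ∀ a b, (g v).cov a b →
        (∃ v' ∈ Finset.Ico 1 (n + 1) \ (insert y Y),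
          ((fun v => if v = n then g y else g v) v').cov a b) ∨
        ∃ j : Fin Y.card, (g (eq.symm j).1).cov a b := by
      intro v hv a b hab
      by_cases hvu : v ∈ insert y Y
      · rcases Finset.mem_insert.1 hvu with rfl | hvY
        · left
          refine ⟨n, (hmem n).2 (Or.inl rfl), ?_⟩
          simp only [if_true]
          exact hab
        · right
          refine ⟨eq ⟨v, hvY⟩, ?_⟩
          rw [Equiv.symm_apply_apply]
          exact hab
      · left
        refine ⟨v, (hmem v).2 (Or.inr ⟨hv, hvu⟩), ?_⟩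
        simp only [if_neg (hne v hv)]
        exact hab
    apply pairs_of
    · rintro a b (⟨u, hu, h⟩ | ⟨j, h⟩)
      · exact Or.inl ⟨u, hu, PF.cov_symm h⟩
      · exact Or.inr ⟨j, PF.cov_symm h⟩
    · intro a ha b hb hab
      rcases h4 a ha b hb hab with ⟨v, hv, h⟩ | ⟨j, h⟩
      · exact hall v hv _ _ ((hg v hv).2.1 _ _ h)
      · exact j.elim0
    · intro a ha
      exact hall a ha _ _ (hg a ha).2.2.1

/-- Several moves (N). -/
theorem St.opNs {x : ℕ → X} {m : ℕ} {e : ℕ → ℕ → ℝ} (C : LComb x m e) {n n' : ℕ} (h1 : 1 ≤ n)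
    (hnn : n ≤ n') (hn : n' ≤ m) {B : Finset ℕ} {w : ℕ} {A : Set ℕ} (h : St x m n B w A) :
    St x m n' B w A := by
  induction n', hnn using Nat.le_induction with
  | base => exact h
  | succ k hk ih => exact St.opN C (by omega) (by omega) (ih (by omega))

/-- Several moves (R). -/
theorem St.opRs {x : ℕ → X} {m : ℕ} {e : ℕ → ℕ → ℝ} (C : LComb x m e) {n : ℕ} (h1 : 1 ≤ n)
    {B : Finset ℕ} {w : ℕ} {A : Set ℕ} (hn : n + w ≤ m) (h : St x m n B w A)
    (hBA : ∀ i ∈ B, i ∈ A) : St x m (n + w) B 0 A := by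
  induction w generalizing n with
  | zero => exact h
  | succ k ih =>
    have h2 := St.opR C h1 (by omega) h hBA
    have h3 := ih (n := n + 1) (by omega) (by omega) h2
    have e : n + (k + 1) = n + 1 + k := by omega
    rw [e]
    exact h3

end Pool.Agent.Lib.MP_293cc0_an.LG
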