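import Pool.Agent.Lib.MP_293cc0_an.LG.Ext

/-!
# MP_293cc0_an: the L-regime, stars and re-used functions
-/

set_option autoImplicit false

namespace Pool.Agent.Lib.MP_293cc0_an.LG

open Finset

variable {X : Type} [MetricSpace X]

/-- The star at the column `n` with tokens `T`. -/
theorem exists_star {x : ℕ → X} {m : ℕ} {e : ℕ → ℕ → ℝ} (C : LComb x m e) {n : ℕ} (hn : n < m)
    {T : Finset ℕ} (hT : T.Nonempty) (hTn : ∀ i ∈ T, i < n) :
    ∃ f : PF X, Past x (n + 1) f ∧ (∀ i ∈ T, f.cov (x i) (x n)) ∧ Srv x m (n + 1) f (x n) ∧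
      (∀ i ∈ T, (∀ j ∈ T, e j n ≤ e i n) → Srv x m (n + 1) f (x i)) ∧
      ∀ A : Set ℕ, (∀ y ∈ A, n < y ∨ (y < n ∧ y ∉ T ∧ ∀ j ∈ T, e j n ≤ e y n)) →
        Wt x m (n + 1) f A := by
  classical
  have hne : ∀ i ∈ T, x i ≠ x n := by
    intro i hi h
    have := C.inj i n (by have := hTn i hi; omega) hn h
    have := hTn i hi
    omega
  let f : PF X :=
    { D := insert (x n) (T.image x)
      s := fun y => decide (y = x n)
      p := fun y => dist y (x n)
      feas := by
        intro a ha b hb hab
        by_cases h1 : a = x n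
        · subst h1
          rw [dist_self, zero_add, dist_comm]
        · by_cases h2 : b = x n
          · subst h2
            rw [dist_self, add_zero]
          · exact absurd (by simp [h1, h2]) hab
      tight := by
        intro a ha
        by_cases h1 : a = x n
        · obtain ⟨i, hi⟩ := hT
          refine ⟨x i, Finset.mem_insert_of_mem (Finset.mem_image_of_mem x hi), ?_, ?_⟩
          · have := hne i hi
            simp [h1, this]
          · rw [h1, dist_self, zero_add, dist_comm]
        · refine ⟨x n, Finset.mem_insert_self _ _, ?_, ?_⟩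
          · simp [h1]
          · rw [dist_self, add_zero] }
  have hD : ∀ y, y ∈ f.D ↔ y = x n ∨ ∃ i ∈ T, x i = y := fun y => by
    show y ∈ insert (x n) (T.image x) ↔ _
    rw [Finset.mem_insert, Finset.mem_image]
  have hs : ∀ y, f.s y = decide (y = x n) := fun y => rfl
  have hp : ∀ y, f.p y = dist y (x n) := fun y => rfl
  have hSn : Srv x m (n + 1) f (x n) := by
    refine ⟨(hD _).2 (Or.inl rfl), fun t ht htm y hy hsy => ?_⟩
    rw [hs, hs] at hsy
    have : y = x n := by
      by_contra h
      simp [h] at hsy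
    rw [this]
  have hSi : ∀ i ∈ T, (∀ j ∈ T, e j n ≤ e i n) → Srv x m (n + 1) f (x i) := by
    intro i hi htop
    refine ⟨(hD _).2 (Or.inr ⟨i, hi, rfl⟩), fun t ht htm y hy hsy => ?_⟩
    rw [hs, hs] at hsy
    rcases (hD _).1 hy with rfl | ⟨j, hj, rfl⟩
    · have := hne i hi
      simp [this] at hsy
    · rw [hp, hp]
      have := C.O j i n t (hTn j hj) (hTn i hi) (by omega) htm (htop j hj)
      linarith
  refine ⟨f, ?_, ?_, hSn, hSi, ?_⟩
  · intro y hy
    rcases (hD _).1 hy with rfl | ⟨j, hj, rfl⟩
    · exact ⟨n, by omega, rfl⟩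
    · exact ⟨j, by have := hTn j hj; omega, rfl⟩
  · intro i hi
    refine ⟨(hD _).2 (Or.inr ⟨i, hi, rfl⟩), (hD _).2 (Or.inl rfl), ?_, ?_⟩
    · rw [hs, hs]
      have := hne i hi
      simp [this]
    · rw [hp, hp, dist_self, add_zero]
  · intro A hA
    obtain ⟨i, hi, hmax⟩ := Finset.exists_max_image T (fun j => e j n) hT
    refine ⟨x i, hSi i hi hmax, fun y hy hym => ⟨?_, fun r hr hyr hrm a ha hsa => ?_⟩⟩
    · intro h
      rcases (hD _).1 h with h | ⟨j, hj, h⟩
      · have h1 := C.inj y n hym hn h
        rcases hA y hy with h2 | h2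
        · omega
        · omega
      · have h1 := C.inj j y (by have := hTn j hj; omega) hym h
        subst h1
        rcases hA j hy with h2 | h2
        · have := hTn j hj
          omega
        · exact h2.2.1 hj
    · have han : a = x n := by
        by_contra h
        rw [hs, hs] at hsa
        have := hne i hi
        simp [h, this] at hsa
      subst han
      rw [hp, hp, dist_self, add_zero]
      have hin := hTn i hi
      rcases hA y hy with h2 | h2
      · have := C.L i n y r (by omega) (by omega) h2 hyr hrm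
        have h3 := C.L n i y r (by omega) h2 (by omega) hyr hrm
        have h4 := dist_comm (x n) (x i)
        have h5 := dist_comm (x n) (x y)
        linarith
      · have := C.O i y n r hin h2.1 (by omega) hrm (h2.2.2 i hi)
        linarith

/-- A waiting function is used at the column `n` for the tokens `B`. -/
theorem exists_reuse {x : ℕ → X} {m : ℕ} {e : ℕ → ℕ → ℝ} (C : LComb x m e) {n : ℕ} (hn : n < m)
    {f : PF X} {A : Set ℕ} (hp : Past x n f) (hw : Wt x m n f A) {B : Finset ℕ}
    (hB : ∀ i ∈ B, i < n) (hBA : ∀ i ∈ B, i ∈ A) :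
    ∃ f' : PF X, Past x (n + 1) f' ∧ (∀ a b, f.cov a b → f'.cov a b) ∧
      (∀ i ∈ B, f'.cov (x i) (x n)) ∧ Srv x m (n + 1) f' (x n) := by
  classical
  obtain ⟨v, hv, hA⟩ := hw
  have hnD : x n ∉ f.D := by
    intro h
    obtain ⟨i, hi, e1⟩ := hp _ h
    have := C.inj i n (by omega) hn e1
    omega
  have hBD : ∀ i ∈ B, x i ∉ f.D := fun i hi =>
    (hA i (hBA i hi) (by have := hB i hi; omega)).1
  have hBn : ∀ i ∈ B, x i ≠ x n := fun i hi h => by
    have := C.inj i n (by have := hB i hi; omega) hn h
    have := hB i hi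
    omega
  obtain ⟨c, hc⟩ : ∃ c : ℝ, c = dist v (x n) - f.p v := ⟨_, rfl⟩
  let s' : X → Bool := fun y => if y ∈ f.D then f.s y else if y = x n then !f.s v else f.s v
  let p' : X → ℝ := fun y => if y ∈ f.D then f.p y else if y = x n then c else dist y (x n) - c
  have hsD : ∀ y ∈ f.D, s' y = f.s y := fun y hy => by simp only [s']; rw [if_pos hy]
  have hpD : ∀ y ∈ f.D, p' y = f.p y := fun y hy => by simp only [p']; rw [if_pos hy]
  have hsn : s' (x n) = (!f.s v) := by
    show (if x n ∈ f.D then f.s (x n) else if x n = x n then !f.s v else f.s v) = (!f.s v)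
    rw [if_neg hnD, if_pos rfl]
  have hpn : p' (x n) = c := by
    show (if x n ∈ f.D then f.p (x n) else if x n = x n then c else dist (x n) (x n) - c) = c
    rw [if_neg hnD, if_pos rfl]
  have hsB : ∀ i ∈ B, s' (x i) = f.s v := fun i hi => by
    simp only [s']; rw [if_neg (hBD i hi), if_neg (hBn i hi)]
  have hpB : ∀ i ∈ B, p' (x i) = dist (x i) (x n) - c := fun i hi => by
    simp only [p']; rw [if_neg (hBD i hi), if_neg (hBn i hi)]
  -- the comparison of `x n` with an old point on the side of `v`
  have key1 : ∀ a ∈ f.D, f.s a = f.s v → c + f.p a ≤ dist a (x n) := by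
    intro a ha hsa
    have := hv.2 n le_rfl hn a ha hsa
    linarith
  -- the comparison of a token with an old point on the other side
  have key2 : ∀ i ∈ B, ∀ a ∈ f.D, f.s a ≠ f.s v →
      dist (x i) (x n) - c + f.p a ≤ dist (x i) a := by
    intro i hi a ha hsa
    have := (hA i (hBA i hi) (by have := hB i hi; omega)).2 n le_rfl (hB i hi) hn a ha hsa
    linarith
  have hflip : ∀ a b : Bool, a ≠ b → a = !b := by decide
  have hflip2 : ∀ a b : Bool, (!a) ≠ b → b = a := by decide
  let f' : PF X :=
    { D := insert (x n) (B.image x ∪ f.D)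
      s := s'
      p := p'
      feas := by
        intro a ha b hb hab
        rw [Finset.mem_insert, Finset.mem_union, Finset.mem_image] at ha hb
        rcases ha with rfl | ⟨i, hi, rfl⟩ | ha
        · rcases hb with rfl | ⟨j, hj, rfl⟩ | hb
          · exact absurd rfl hab
          · rw [hpn, hpB j hj, dist_comm (x n) (x j)]; linarith
          · rw [hpn, hpD b hb, dist_comm (x n) b]
            rw [hsn, hsD b hb] at hab
            exact key1 b hb (hflip2 _ _ hab)
        · rcases hb with rfl | ⟨j, hj, rfl⟩ | hb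
          · rw [hpn, hpB i hi]; linarith
          · exact absurd (by rw [hsB i hi, hsB j hj]) hab
          · rw [hpB i hi, hpD b hb]
            rw [hsB i hi, hsD b hb] at hab
            exact key2 i hi b hb (fun h => hab h.symm)
        · rcases hb with rfl | ⟨j, hj, rfl⟩ | hb
          · rw [hpn, hpD a ha]
            rw [hsn, hsD a ha] at hab
            have := key1 a ha (hflip2 _ _ (fun h => hab h.symm))
            linarith
          · rw [hpB j hj, hpD a ha]
            rw [hsB j hj, hsD a ha] at hab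
            have := key2 j hj a ha hab
            rw [dist_comm a (x j)]
            linarith
          · rw [hpD a ha, hpD b hb]
            rw [hsD a ha, hsD b hb] at hab
            exact f.feas a ha b hb hab
      tight := by
        intro a ha
        rw [Finset.mem_insert, Finset.mem_union, Finset.mem_image] at ha
        rcases ha with rfl | ⟨i, hi, rfl⟩ | ha
        · refine ⟨v, Finset.mem_insert_of_mem (Finset.mem_union_right _ hv.1), ?_, ?_⟩
          · rw [hsn, hsD v hv.1]; cases f.s v <;> simp
          · rw [hpn, hpD v hv.1, dist_comm (x n) v, hc]; ring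
        · refine ⟨x n, Finset.mem_insert_self _ _, ?_, ?_⟩
          · rw [hsn, hsB i hi]; cases f.s v <;> simp
          · rw [hpn, hpB i hi]; ring
        · obtain ⟨b, hb, h1, h2⟩ := f.tight a ha
          refine ⟨b, Finset.mem_insert_of_mem (Finset.mem_union_right _ hb), ?_, ?_⟩
          · rw [hsD a ha, hsD b hb]; exact h1
          · rw [hpD a ha, hpD b hb]; exact h2 }
  have hD : ∀ y, y ∈ f'.D ↔ y = x n ∨ (∃ i ∈ B, x i = y) ∨ y ∈ f.D := fun y => by
    show y ∈ insert (x n) (B.image x ∪ f.D) ↔ _
    rw [Finset.mem_insert, Finset.mem_union, Finset.mem_image]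
  obtain ⟨iv, hiv, ev⟩ := hp v hv.1
  refine ⟨f', ?_, ?_, ?_, ?_⟩
  · intro y hy
    rcases (hD _).1 hy with rfl | ⟨j, hj, rfl⟩ | hy
    · exact ⟨n, by omega, rfl⟩
    · exact ⟨j, by have := hB j hj; omega, rfl⟩
    · obtain ⟨i, hi, e1⟩ := hp y hy
      exact ⟨i, by omega, e1⟩
  · rintro a b ⟨ha, hb, h1, h2⟩
    refine ⟨(hD a).2 (Or.inr (Or.inr ha)), (hD b).2 (Or.inr (Or.inr hb)), ?_, ?_⟩
    · show s' a ≠ s' b
      rw [hsD a ha, hsD b hb]; exact h1
    · show p' a + p' b = _
      rw [hpD a ha, hpD b hb]; exact h2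
  · intro i hi
    refine ⟨(hD _).2 (Or.inr (Or.inl ⟨i, hi, rfl⟩)), (hD _).2 (Or.inl rfl), ?_, ?_⟩
    · show s' (x i) ≠ s' (x n)
      rw [hsn, hsB i hi]; cases f.s v <;> simp
    · show p' (x i) + p' (x n) = _
      rw [hpn, hpB i hi]; ring
  · refine ⟨(hD _).2 (Or.inl rfl), fun t ht htm y hy hsy => ?_⟩
    change s' y = s' (x n) at hsy
    show dist (x n) (x t) - p' (x n) ≤ dist y (x t) - p' y
    rcases (hD y).1 hy with rfl | ⟨j, hj, rfl⟩ | hy
    · exact le_rfl
    · rw [hsB j hj, hsn] at hsy
      exact absurd hsy (by cases f.s v <;> simp)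
    · rw [hsD y hy, hsn] at hsy
      rw [hpn, hpD y hy, hc]
      obtain ⟨iy, hiy, ey⟩ := hp y hy
      have hneq : iy ≠ iv := by
        intro h
        subst h
        rw [← ey, ← ev] at hsy
        revert hsy; cases f.s (x iy) <;> simp
      have hf := f.feas y hy v hv.1 (by rw [hsy]; cases f.s v <;> simp)
      have h2 := C.L iv iy n t (Ne.symm hneq) hiv hiy (by omega) htm
      rw [ey, ev] at h2
      have h3 := dist_comm v y
      linarith

end Pool.Agent.Lib.MP_293cc0_an.LG
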