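import Pool.Agent.Lib.MP_293cc0_an.LG.Star

/-!
# MP_293cc0_an: the L-regime, the game

`St x m n B w A`: the points `x 1, …, x (n-1)` are processed, `B` is the set of unserved points,
every other point has its own server, `w` further functions wait for tokens in `A`.
The number of functions is `n - 1 - |B| + w`.
-/

set_option autoImplicit false

namespace Pool.Agent.Lib.MP_293cc0_an.LG

open Finset

variable {X : Type} [MetricSpace X]

/-- The state of the game before the column `n`. -/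
def St (x : ℕ → X) (m n : ℕ) (B : Finset ℕ) (w : ℕ) (A : Set ℕ) : Prop :=
  B ⊆ Finset.Ico 1 n ∧ ∃ (srv : ℕ → PF X) (wt : Fin w → PF X),
    (∀ u ∈ Finset.Ico 1 n \ B, Past x n (srv u) ∧ Srv x m n (srv u) (x u)) ∧
    (∀ j, Past x n (wt j) ∧ Wt x m n (wt j) A) ∧
    (∀ a ∈ Finset.Ico 1 n, ∀ b ∈ Finset.Ico 1 n, a ≠ b →
      (∃ u ∈ Finset.Ico 1 n \ B, (srv u).cov (x a) (x b)) ∨ ∃ j, (wt j).cov (x a) (x b))

theorem St.init (x : ℕ → X) (m : ℕ) (A : Set ℕ) : St x m 1 ∅ 0 A := by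
  refine ⟨by simp, fun _ => ⟨∅, fun _ => true, fun _ => 0, by simp, by simp⟩, fun j => j.elim0,
    ?_, fun j => j.elim0, ?_⟩
  · intro u hu
    rw [Finset.mem_sdiff, Finset.mem_Ico] at hu
    omega
  · intro a ha
    rw [Finset.mem_Ico] at ha
    omega

theorem St.mono {x : ℕ → X} {m n : ℕ} {B : Finset ℕ} {w : ℕ} {A A' : Set ℕ}
    (h : St x m n B w A) (hA : A' ⊆ A) : St x m n B w A' := by
  obtain ⟨h1, srv, wt, h2, h3, h4⟩ := h
  exact ⟨h1, srv, wt, h2, fun j => ⟨(h3 j).1, (h3 j).2.mono le_rfl hA⟩, h4⟩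

theorem St.anyA {x : ℕ → X} {m n : ℕ} {B : Finset ℕ} {A : Set ℕ}
    (h : St x m n B 0 A) (A' : Set ℕ) : St x m n B 0 A' := by
  obtain ⟨h1, srv, wt, h2, h3, h4⟩ := h
  exact ⟨h1, srv, wt, h2, fun j => j.elim0, h4⟩

/-- A common tool: extend all the servers. -/
theorem St.ext {x : ℕ → X} {m : ℕ} {e : ℕ → ℕ → ℝ} (C : LComb x m e) {n : ℕ} (hn : n < m)
    {B : Finset ℕ} {srv : ℕ → PF X}
    (h2 : ∀ u ∈ Finset.Ico 1 n \ B, Past x n (srv u) ∧ Srv x m n (srv u) (x u)) :
    ∃ g : ℕ → PF X, ∀ u ∈ Finset.Ico 1 n \ B, Past x (n + 1) (g u) ∧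
      (∀ a b, (srv u).cov a b → (g u).cov a b) ∧ (g u).cov (x u) (x n) ∧
      Srv x m (n + 1) (g u) (x u) ∧ Srv x m (n + 1) (g u) (x n) ∧
      Wt x m (n + 1) (g u) {j | n < j} := by
  have : ∀ u, ∃ g : PF X, u ∈ Finset.Ico 1 n \ B → Past x (n + 1) g ∧
      (∀ a b, (srv u).cov a b → g.cov a b) ∧ g.cov (x u) (x n) ∧
      Srv x m (n + 1) g (x u) ∧ Srv x m (n + 1) g (x n) ∧
      Wt x m (n + 1) g {j | n < j} := by
    intro u
    by_cases hu : u ∈ Finset.Ico 1 n \ B
    · obtain ⟨g, hg⟩ := exists_ext C hn (h2 u hu).1 (h2 u hu).2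
      exact ⟨g, fun _ => hg⟩
    · exact ⟨srv u, fun h => absurd h hu⟩
  choose g hg using this
  exact ⟨g, fun u hu => hg u hu⟩

/-- A symmetric statement about the new pairs suffices. -/
theorem pairs_of {n : ℕ} {R : ℕ → ℕ → Prop} (hsymm : ∀ a b, R a b → R b a)
    (hold : ∀ a ∈ Finset.Ico 1 n, ∀ b ∈ Finset.Ico 1 n, a ≠ b → R a b)
    (hnew : ∀ a ∈ Finset.Ico 1 n, R a n) :
    ∀ a ∈ Finset.Ico 1 (n + 1), ∀ b ∈ Finset.Ico 1 (n + 1), a ≠ b → R a b := by
  intro a ha b hb hab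
  rw [Finset.mem_Ico] at ha hb
  by_cases h1 : a = n
  · subst h1
    exact hsymm _ _ (hnew b (Finset.mem_Ico.2 ⟨hb.1, by omega⟩))
  · by_cases h2 : b = n
    · subst h2
      exact hnew a (Finset.mem_Ico.2 ⟨ha.1, by omega⟩)
    · exact hold a (Finset.mem_Ico.2 ⟨ha.1, by omega⟩) b (Finset.mem_Ico.2 ⟨hb.1, by omega⟩) hab

/-- Move (N): nothing happens. -/
theorem St.opN {x : ℕ → X} {m : ℕ} {e : ℕ → ℕ → ℝ} (C : LComb x m e) {n : ℕ} (h1 : 1 ≤ n)
    (hn : n < m) {B : Finset ℕ} {w : ℕ} {A : Set ℕ} (h : St x m n B w A) :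
    St x m (n + 1) B w A := by
  classical
  obtain ⟨hB, srv, wt, h2, h3, h4⟩ := h
  obtain ⟨g, hg⟩ := St.ext C hn h2
  have hBn : ∀ i ∈ B, i < n := fun i hi => (Finset.mem_Ico.1 (hB hi)).2
  obtain ⟨f, hf1, hf2, hf3, -, -⟩ := exists_star C hn (T := insert 0 B) (Finset.insert_nonempty _ _)
    (by
      intro i hi
      rcases Finset.mem_insert.1 hi with rfl | hi
      · omega
      · exact hBn i hi)
  have hmem : ∀ u, u ∈ Finset.Ico 1 (n + 1) \ B ↔ u = n ∨ u ∈ Finset.Ico 1 n \ B := by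
    intro u
    rw [Finset.mem_sdiff, Finset.mem_sdiff, Finset.mem_Ico, Finset.mem_Ico]
    have : u ∈ B → u < n := hBn u
    by_cases hu : u ∈ B
    · have := this hu
      simp only [hu, not_true, and_false, or_false, false_iff]
      omega
    · simp only [hu, not_false_iff, and_true]
      omega
  have hne : ∀ u, u ∈ Finset.Ico 1 n \ B → u ≠ n := by
    intro u hu
    rw [Finset.mem_sdiff, Finset.mem_Ico] at hu
    omega
  refine ⟨fun u hu => ?_, fun u => if u = n then f else g u, wt, ?_, ?_, ?_⟩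
  · have := Finset.mem_Ico.1 (hB hu)
    exact Finset.mem_Ico.2 ⟨this.1, by omega⟩
  · intro u hu
    rcases (hmem u).1 hu with rfl | hu
    · simp only [if_true]
      exact ⟨hf1, hf3⟩
    · simp only [if_neg (hne u hu)]
      exact ⟨(hg u hu).1, (hg u hu).2.2.2.1⟩
  · exact fun j => ⟨(h3 j).1.mono (by omega), (h3 j).2.mono (by omega) (fun _ h => h)⟩
  · apply pairs_of
    · rintro a b (⟨u, hu, h⟩ | ⟨j, h⟩)
      · exact Or.inl ⟨u, hu, PF.cov_symm h⟩
      · exact Or.inr ⟨j, PF.cov_symm h⟩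
    · intro a ha b hb hab
      rcases h4 a ha b hb hab with ⟨u, hu, h⟩ | ⟨j, h⟩
      · refine Or.inl ⟨u, (hmem u).2 (Or.inr hu), ?_⟩
        simp only [if_neg (hne u hu)]
        exact (hg u hu).2.1 _ _ h
      · exact Or.inr ⟨j, h⟩
    · intro a ha
      by_cases haB : a ∈ B
      · refine Or.inl ⟨n, (hmem n).2 (Or.inl rfl), ?_⟩
        simp only [if_true]
        exact hf2 a (Finset.mem_insert_of_mem haB)
      · have hu : a ∈ Finset.Ico 1 n \ B := Finset.mem_sdiff.2 ⟨ha, haB⟩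
        refine Or.inl ⟨a, (hmem a).2 (Or.inr hu), ?_⟩
        simp only [if_neg (hne a hu)]
        exact (hg a hu).2.2.1

/-- Move (S): the top `y` of `B` leaves `B`, the served point `u` enters `B`. -/
theorem St.opS {x : ℕ → X} {m : ℕ} {e : ℕ → ℕ → ℝ} (C : LComb x m e) {n : ℕ}
    (hn : n < m) {B : Finset ℕ} {w : ℕ} {A : Set ℕ} (h : St x m n B w A) {y u : ℕ} (hy : y ∈ B)
    (htop : ∀ b ∈ B, e b n ≤ e y n) (hu : u ∈ Finset.Ico 1 n \ B) :
    St x m (n + 1) (insert u (B.erase y)) w A := by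
  classical
  obtain ⟨hB, srv, wt, h2, h3, h4⟩ := h
  obtain ⟨g, hg⟩ := St.ext C hn h2
  have hBn : ∀ i ∈ B, i < n := fun i hi => (Finset.mem_Ico.1 (hB hi)).2
  obtain ⟨f, hf1, hf2, -, hf4, -⟩ := exists_star C hn (T := B) ⟨y, hy⟩ hBn
  have hfy := hf4 y hy htop
  have hu' := Finset.mem_sdiff.1 hu
  have hu1 := Finset.mem_Ico.1 hu'.1
  have hy1 := Finset.mem_Ico.1 (hB hy)
  have huy : u ≠ y := fun h => hu'.2 (h ▸ hy)
  -- who is served
  have hmem : ∀ v, v ∈ Finset.Ico 1 (n + 1) \ (insert u (B.erase y)) ↔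
      v = n ∨ v = y ∨ (v ∈ Finset.Ico 1 n \ B ∧ v ≠ u) := by
    intro v
    rw [Finset.mem_sdiff, Finset.mem_sdiff, Finset.mem_Ico, Finset.mem_Ico, Finset.mem_insert,
      Finset.mem_erase]
    by_cases hv : v = y
    · subst hv
      simp only [ne_eq, not_true, false_and, or_false, true_or, or_true, iff_true]
      exact ⟨by omega, fun h => huy h.symm⟩
    · by_cases hvB : v ∈ B
      · have := hBn v hvB
        simp only [hvB, hv, ne_eq, not_false_iff, and_true, true_and, or_true, not_true, and_false,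
          false_and, or_false, false_iff]
        omega
      · simp only [hvB, hv, ne_eq, not_false_iff, and_true, true_and, and_false, or_false,
          false_or]
        omega
  have hne : ∀ v, v ∈ Finset.Ico 1 n \ B → v ≠ n := by
    intro v hv
    rw [Finset.mem_sdiff, Finset.mem_Ico] at hv
    omega
  have hney : ∀ v, v ∈ Finset.Ico 1 n \ B → v ≠ y := by
    intro v hv h
    rw [Finset.mem_sdiff] at hv
    exact hv.2 (h ▸ hy)
  have hyn : y ≠ n := by omega
  -- the new servers: `n` is served by `g u`, `y` by the star `f`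
  refine ⟨?_, fun v => if v = n then g u else if v = y then f else g v, wt, ?_, ?_, ?_⟩
  · intro v hv
    rcases Finset.mem_insert.1 hv with rfl | hv
    · exact Finset.mem_Ico.2 ⟨hu1.1, by omega⟩
    · have := Finset.mem_Ico.1 (hB (Finset.mem_of_mem_erase hv))
      exact Finset.mem_Ico.2 ⟨this.1, by omega⟩
  · intro v hv
    rcases (hmem v).1 hv with rfl | rfl | ⟨hv, hvu⟩
    · simp only [if_true]
      exact ⟨(hg u hu).1, (hg u hu).2.2.2.2.1⟩
    · simp only [if_true, if_neg hyn]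
      exact ⟨hf1, hfy⟩
    · simp only [if_neg (hne v hv), if_neg (hney v hv)]
      exact ⟨(hg v hv).1, (hg v hv).2.2.2.1⟩
  · exact fun j => ⟨(h3 j).1.mono (by omega), (h3 j).2.mono (by omega) (fun _ h => h)⟩
  · -- every `g v` is still there
    have hall : ∀ v ∈ Finset.Ico 1 n \ B, ∀ a b, (g v).cov a b →
        ∃ v' ∈ Finset.Ico 1 (n + 1) \ (insert u (B.erase y)),
          ((fun v => if v = n then g u else if v = y then f else g v) v').cov a b := by
      intro v hv a b hab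
      by_cases hvu : v = u
      · subst hvu
        refine ⟨n, (hmem n).2 (Or.inl rfl), ?_⟩
        simp only [if_true]
        exact hab
      · refine ⟨v, (hmem v).2 (Or.inr (Or.inr ⟨hv, hvu⟩)), ?_⟩
        simp only [if_neg (hne v hv), if_neg (hney v hv)]
        exact hab
    apply pairs_of
    · rintro a b (⟨u, hu, h⟩ | ⟨j, h⟩)
      · exact Or.inl ⟨u, hu, PF.cov_symm h⟩
      · exact Or.inr ⟨j, PF.cov_symm h⟩
    · intro a ha b hb hab
      rcases h4 a ha b hb hab with ⟨v, hv, h⟩ | ⟨j, h⟩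
      · exact Or.inl (hall v hv _ _ ((hg v hv).2.1 _ _ h))
      · exact Or.inr ⟨j, h⟩
    · intro a ha
      by_cases haB : a ∈ B
      · refine Or.inl ⟨y, (hmem y).2 (Or.inr (Or.inl rfl)), ?_⟩
        simp only [if_true, if_neg hyn]
        exact hf2 a haB
      · have hv : a ∈ Finset.Ico 1 n \ B := Finset.mem_sdiff.2 ⟨ha, haB⟩
        exact Or.inl (hall a hv _ _ (hg a hv).2.2.1)

/-- Move (G0): the first gain. -/
theorem St.opG0 {x : ℕ → X} {m : ℕ} {e : ℕ → ℕ → ℝ} (C : LComb x m e) {n : ℕ}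
    (hn : n < m) {w : ℕ} {A : Set ℕ} (h : St x m n ∅ w A) {y : ℕ}
    (hy : y ∈ Finset.Ico 1 n) : St x m (n + 1) {y} w A := by
  classical
  obtain ⟨hB, srv, wt, h2, h3, h4⟩ := h
  obtain ⟨g, hg⟩ := St.ext C hn h2
  have hy1 := Finset.mem_Ico.1 hy
  rw [Finset.sdiff_empty] at h2 h4 hg
  have hmem : ∀ v, v ∈ Finset.Ico 1 (n + 1) \ {y} ↔ v = n ∨ (v ∈ Finset.Ico 1 n ∧ v ≠ y) := by
    intro v
    rw [Finset.mem_sdiff, Finset.mem_Ico, Finset.mem_Ico, Finset.mem_singleton]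
    omega
  have hne : ∀ v, v ∈ Finset.Ico 1 n → v ≠ n := by
    intro v hv
    rw [Finset.mem_Ico] at hv
    omega
  refine ⟨?_, fun v => if v = n then g y else g v, wt, ?_, ?_, ?_⟩
  · intro v hv
    rw [Finset.mem_singleton] at hv
    subst hv
    exact Finset.mem_Ico.2 ⟨hy1.1, by omega⟩
  · intro v hv
    rcases (hmem v).1 hv with rfl | ⟨hv, hvu⟩
    · simp only [if_true]
      exact ⟨(hg y hy).1, (hg y hy).2.2.2.2.1⟩
    · simp only [if_neg (hne v hv)]
      exact ⟨(hg v hv).1, (hg v hv).2.2.2.1⟩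
  · exact fun j => ⟨(h3 j).1.mono (by omega), (h3 j).2.mono (by omega) (fun _ h => h)⟩
  · have hall : ∀ v ∈ Finset.Ico 1 n, ∀ a b, (g v).cov a b →
        ∃ v' ∈ Finset.Ico 1 (n + 1) \ {y},
          ((fun v => if v = n then g y else g v) v').cov a b := by
      intro v hv a b hab
      by_cases hvu : v = y
      · subst hvu
        refine ⟨n, (hmem n).2 (Or.inl rfl), ?_⟩
        simp only [if_true]
        exact hab
      · refine ⟨v, (hmem v).2 (Or.inr ⟨hv, hvu⟩), ?_⟩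
        simp only [if_neg (hne v hv)]
        exact hab
    apply pairs_of
    · rintro a b (⟨u, hu, h⟩ | ⟨j, h⟩)
      · exact Or.inl ⟨u, hu, PF.cov_symm h⟩
      · exact Or.inr ⟨j, PF.cov_symm h⟩
    · intro a ha b hb hab
      rcases h4 a ha b hb hab with ⟨v, hv, h⟩ | ⟨j, h⟩
      · exact Or.inl (hall v hv _ _ ((hg v hv).2.1 _ _ h))
      · exact Or.inr ⟨j, h⟩
    · intro a ha
      exact Or.inl (hall a ha _ _ (hg a ha).2.2.1)

/-- Move (G): a gain. The server of `y` becomes the server of `n`, the star at `n` waits. -/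
theorem St.opG {x : ℕ → X} {m : ℕ} {e : ℕ → ℕ → ℝ} (C : LComb x m e) {n : ℕ}
    (hn : n < m) {B : Finset ℕ} {A0 : Set ℕ} (h : St x m n B 0 A0) (hBne : B.Nonempty)
    {y : ℕ} (hy : y ∈ Finset.Ico 1 n \ B) {A : Set ℕ}
    (hA : ∀ z ∈ A, n < z ∨ (z < n ∧ z ∉ B ∧ ∀ j ∈ B, e j n ≤ e z n)) :
    St x m (n + 1) (insert y B) 1 A := by
  classical
  obtain ⟨hB, srv, wt, h2, h3, h4⟩ := h
  obtain ⟨g, hg⟩ := St.ext C hn h2
  have hBn : ∀ i ∈ B, i < n := fun i hi => (Finset.mem_Ico.1 (hB hi)).2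
  obtain ⟨f, hf1, hf2, -, -, hf5⟩ := exists_star C hn (T := B) hBne hBn
  have hy' := Finset.mem_sdiff.1 hy
  have hy1 := Finset.mem_Ico.1 hy'.1
  have hmem : ∀ v, v ∈ Finset.Ico 1 (n + 1) \ (insert y B) ↔
      v = n ∨ (v ∈ Finset.Ico 1 n \ B ∧ v ≠ y) := by
    intro v
    rw [Finset.mem_sdiff, Finset.mem_sdiff, Finset.mem_Ico, Finset.mem_Ico, Finset.mem_insert]
    by_cases hvB : v ∈ B
    · have := hBn v hvB
      simp only [hvB, or_true, not_true, and_false, false_and, or_false, false_iff]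
      omega
    · simp only [hvB, or_false, not_false_iff, and_true]
      omega
  have hne : ∀ v, v ∈ Finset.Ico 1 n \ B → v ≠ n := by
    intro v hv
    rw [Finset.mem_sdiff, Finset.mem_Ico] at hv
    omega
  refine ⟨?_, fun v => if v = n then g y else g v, fun _ => f, ?_, ?_, ?_⟩
  · intro v hv
    rcases Finset.mem_insert.1 hv with rfl | hv
    · exact Finset.mem_Ico.2 ⟨hy1.1, by omega⟩
    · have := Finset.mem_Ico.1 (hB hv)
      exact Finset.mem_Ico.2 ⟨this.1, by omega⟩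
  · intro v hv
    rcases (hmem v).1 hv with rfl | ⟨hv, hvu⟩
    · simp only [if_true]
      exact ⟨(hg y hy).1, (hg y hy).2.2.2.2.1⟩
    · simp only [if_neg (hne v hv)]
      exact ⟨(hg v hv).1, (hg v hv).2.2.2.1⟩
  · exact fun j => ⟨hf1, hf5 A hA⟩
  · have hall : ∀ v ∈ Finset.Ico 1 n \ B, ∀ a b, (g v).cov a b →
        ∃ v' ∈ Finset.Ico 1 (n + 1) \ (insert y B),
          ((fun v => if v = n then g y else g v) v').cov a b := by
      intro v hv a b hab
      by_cases hvu : v = y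
      · subst hvu
        refine ⟨n, (hmem n).2 (Or.inl rfl), ?_⟩
        simp only [if_true]
        exact hab
      · refine ⟨v, (hmem v).2 (Or.inr ⟨hv, hvu⟩), ?_⟩
        simp only [if_neg (hne v hv)]
        exact hab
    apply pairs_of
    · rintro a b (⟨u, hu, h⟩ | ⟨j, h⟩)
      · exact Or.inl ⟨u, hu, PF.cov_symm h⟩
      · exact Or.inr ⟨j, PF.cov_symm h⟩
    · intro a ha b hb hab
      rcases h4 a ha b hb hab with ⟨v, hv, h⟩ | ⟨j, h⟩
      · exact Or.inl (hall v hv _ _ ((hg v hv).2.1 _ _ h))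
      · exact j.elim0
    · intro a ha
      by_cases haB : a ∈ B
      · exact Or.inr ⟨0, hf2 a haB⟩
      · have hv : a ∈ Finset.Ico 1 n \ B := Finset.mem_sdiff.2 ⟨ha, haB⟩
        exact Or.inl (hall a hv _ _ (hg a hv).2.2.1)

/-- Move (R): a waiting function is used. -/
theorem St.opR {x : ℕ → X} {m : ℕ} {e : ℕ → ℕ → ℝ} (C : LComb x m e) {n : ℕ} (h1 : 1 ≤ n)
    (hn : n < m) {B : Finset ℕ} {w : ℕ} {A : Set ℕ} (h : St x m n B (w + 1) A)
    (hBA : ∀ i ∈ B, i ∈ A) : St x m (n + 1) B w A := by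
  classical
  obtain ⟨hB, srv, wt, h2, h3, h4⟩ := h
  obtain ⟨g, hg⟩ := St.ext C hn h2
  have hBn : ∀ i ∈ B, i < n := fun i hi => (Finset.mem_Ico.1 (hB hi)).2
  obtain ⟨f, hf1, hf2, hf3, hf4⟩ := exists_reuse C hn (h3 (Fin.last w)).1 (h3 (Fin.last w)).2
    hBn hBA
  have hmem : ∀ u, u ∈ Finset.Ico 1 (n + 1) \ B ↔ u = n ∨ u ∈ Finset.Ico 1 n \ B := by
    intro u
    rw [Finset.mem_sdiff, Finset.mem_sdiff, Finset.mem_Ico, Finset.mem_Ico]
    have : u ∈ B → u < n := hBn u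
    by_cases hu : u ∈ B
    · have := this hu
      simp only [hu, not_true, and_false, or_false, false_iff]
      omega
    · simp only [hu, not_false_iff, and_true]
      omega
  have hne : ∀ u, u ∈ Finset.Ico 1 n \ B → u ≠ n := by
    intro u hu
    rw [Finset.mem_sdiff, Finset.mem_Ico] at hu
    omega
  refine ⟨fun u hu => ?_, fun u => if u = n then f else g u, fun j => wt j.castSucc, ?_, ?_, ?_⟩
  · have := Finset.mem_Ico.1 (hB hu)
    exact Finset.mem_Ico.2 ⟨this.1, by omega⟩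
  · intro u hu
    rcases (hmem u).1 hu with rfl | hu
    · simp only [if_true]
      exact ⟨hf1, hf4⟩
    · simp only [if_neg (hne u hu)]
      exact ⟨(hg u hu).1, (hg u hu).2.2.2.1⟩
  · exact fun j => ⟨(h3 _).1.mono (by omega), (h3 _).2.mono (by omega) (fun _ h => h)⟩
  · apply pairs_of
    · rintro a b (⟨u, hu, h⟩ | ⟨j, h⟩)
      · exact Or.inl ⟨u, hu, PF.cov_symm h⟩
      · exact Or.inr ⟨j, PF.cov_symm h⟩
    · intro a ha b hb hab
      rcases h4 a ha b hb hab with ⟨u, hu, h⟩ | ⟨j, h⟩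
      · refine Or.inl ⟨u, (hmem u).2 (Or.inr hu), ?_⟩
        simp only [if_neg (hne u hu)]
        exact (hg u hu).2.1 _ _ h
      · revert h
        refine Fin.lastCases ?_ (fun j => ?_) j
        · intro h
          refine Or.inl ⟨n, (hmem n).2 (Or.inl rfl), ?_⟩
          simp only [if_true]
          exact hf2 _ _ h
        · intro h
          exact Or.inr ⟨j, h⟩
    · intro a ha
      by_cases haB : a ∈ B
      · refine Or.inl ⟨n, (hmem n).2 (Or.inl rfl), ?_⟩
        simp only [if_true]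
        exact hf3 a haB
      · have hu : a ∈ Finset.Ico 1 n \ B := Finset.mem_sdiff.2 ⟨ha, haB⟩
        refine Or.inl ⟨a, (hmem a).2 (Or.inr hu), ?_⟩
        simp only [if_neg (hne a hu)]
        exact (hg a hu).2.2.1

/-- The end of the game. -/
theorem St.cov {x : ℕ → X} {m n : ℕ} {B : Finset ℕ} {A : Set ℕ}
    (hinj : ∀ i j, i < m → j < m → x i = x j → i = j) (hnm : n ≤ m) (h : St x m n B 0 A) :
    ∃ (S : Finset X) (k : ℕ), Cov S k ∧ k + B.card ≤ S.card := by
  classical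
  obtain ⟨hB, srv, wt, h2, h3, h4⟩ := h
  have hinj' : Set.InjOn x (Finset.Ico 1 n : Finset ℕ) := by
    intro i hi j hj hij
    rw [Finset.mem_coe, Finset.mem_Ico] at hi hj
    exact hinj i j (by omega) (by omega) hij
  refine ⟨(Finset.Ico 1 n).image x, (Finset.Ico 1 n \ B).card, ?_, ?_⟩
  · let eq := (Finset.Ico 1 n \ B).equivFin
    refine ⟨fun i => srv (eq.symm i).1, ?_⟩
    intro a ha b hb hab
    rw [Finset.mem_image] at ha hb
    obtain ⟨i, hi, rfl⟩ := ha
    obtain ⟨j, hj, rfl⟩ := hb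
    rcases h4 i hi j hj (fun h => hab (by rw [h])) with ⟨u, hu, h⟩ | ⟨j, h⟩
    · refine ⟨eq ⟨u, hu⟩, ?_⟩
      simp only [Equiv.symm_apply_apply]
      exact h
    · exact j.elim0
  · rw [Finset.card_image_of_injOn hinj', ← Finset.card_sdiff_add_card_eq_card hB]

end Pool.Agent.Lib.MP_293cc0_an.LG
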